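import Pool.Agent.H61.HB.Defs

/-!
Project HB (MP_91403e_an), statements.  Row XXX = def XXXStmt : Prop.

Result: on the torus, for every `s ≥ 2`, every `ν > 0` and every field `u₀ ∈ H^s` (any size) whose
component along some direction `m` depends only on `m · x`, all data in a neighbourhood of `u₀` in
`H^s` have a global strong solution.
-/

set_option autoImplicit false

namespace HB

/-! ### Sequences -/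

/-- **YNG** (Young `ℓ¹ * ℓ² ⊂ ℓ²`). `(∑ p_l q_{k-l})² ≤ (∑ p) ∑_l p_l q_{k-l}²`, sum over `k`. -/
def YNGStmt : Prop :=
  ∀ p q : Z2 → ℝ, (∀ k, 0 ≤ p k) → (∀ k, 0 ≤ q k) → Summable p → Summable (fun k => q k ^ 2) →
    (∀ k, Summable fun l => p l * q (k - l)) ∧
    Summable (fun k => (∑' l, p l * q (k - l)) ^ 2) ∧
    ∑' k, (∑' l, p l * q (k - l)) ^ 2 ≤ (∑' l, p l) ^ 2 * ∑' k, q k ^ 2

/-- **SUM**. e.g. `(1 + k₁² + k₂²)² ≥ (1 + k₁²)(1 + k₂²)` and products of summable families. -/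
def SUMStmt : Prop := Summable fun k : Z2 => ((1 + sq k) ^ 2)⁻¹

/-- **LON** (Cauchy - Schwarz): `H^(σ+2)` embeds into weighted `ℓ¹`. -/
def LONStmt : Prop :=
  ∀ (σ : ℝ) (f : Z2 → ℂ), MemS (σ + 2) f →
    Summable (fun k => (1 + sq k) ^ (σ / 2) * ‖f k‖) ∧
    (∑' k, (1 + sq k) ^ (σ / 2) * ‖f k‖) ^ 2 ≤ cW * nqS (σ + 2) f

/-- **MMB** (basic facts). Comparison; `‖a - b‖² ≤ 2 ‖a‖² + 2 ‖b‖²`; `1 + sq k ≥ 1`. -/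
def MMBStmt : Prop :=
  (∀ (s : ℝ) (f : Z2 → ℂ), 0 ≤ nqS s f) ∧
  (∀ (r s : ℝ) (f : Z2 → ℂ), r ≤ s → MemS s f → MemS r f ∧ nqS r f ≤ nqS s f) ∧
  (∀ (s : ℝ) (f g : Z2 → ℂ), MemS s f → MemS s g →
    MemS s (f - g) ∧ MemS s (f + g) ∧ nqS s (f - g) ≤ 2 * nqS s f + 2 * nqS s g ∧
    nqS s (f + g) ≤ 2 * nqS s f + 2 * nqS s g) ∧
  (∀ (s : ℝ) (u : V), 0 ≤ nsq s u) ∧
  (∀ (r s : ℝ) (u : V), r ≤ s → Mem s u → Mem r u ∧ nsq r u ≤ nsq s u) ∧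
  (∀ (s : ℝ) (u v : V), Mem s u → Mem s v →
    Mem s (u - v) ∧ Mem s (u + v) ∧ nsq s (u - v) ≤ 2 * nsq s u + 2 * nsq s v ∧
    nsq s (u + v) ≤ 2 * nsq s u + 2 * nsq s v)

/-- **BIL** (bilinear estimate). `1 + |k|² ≤ 4 max (1 + |l|²) (1 + |k-l|²)`, so
`(1+|k|²)^((s-2)/2) ≤ 2^(s-2) ((1+|l|²)^((s-2)/2) + (1+|k-l|²)^((s-2)/2))`; then `YNG` twice with
`LON` for the `ℓ¹` factor (`u` with `σ = s - 2`, and `u` with `σ = 0`); the other factor is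
`|p| |f p|` (times the weight), `|p|² ≤ 1 + |p|²`. -/
def BILStmt : Prop :=
  ∀ s : ℝ, 2 ≤ s → ∃ C : ℝ, 0 < C ∧ ∀ (u : V) (f : Z2 → ℂ), Mem s u → MemS s f →
    (∀ k, Summable fun l => ‖trm u f k l‖) ∧ MemS (s - 2) (dot u f) ∧
    nqS (s - 2) (dot u f) ≤ C * (nsq s u * nqS 2 f + nsq 2 u * nqS s f)

/-- **LIN** (linearity of `dot`; all sums converge absolutely, see `BIL`). -/
def LINStmt : Prop :=
  (∀ (u v : V) (f : Z2 → ℂ), Mem 2 u → Mem 2 v → MemS 2 f →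
    dot (u - v) f = dot u f - dot v f) ∧
  (∀ (u : V) (f g : Z2 → ℂ), Mem 2 u → MemS 2 f → MemS 2 g →
    dot u (f - g) = dot u f - dot u g) ∧
  (∀ (c : Fin 2 → ℝ) (u v : V), Mem 2 u → Mem 2 v → lin c (adv u v) = dot u (lin c v)) ∧
  (∀ (c : Fin 2 → ℝ) (s : ℝ) (u : V), Mem s u → MemS s (lin c u))

/-- **REA** (real fields). Substitution `l ↦ -l`. -/
def REAStmt : Prop := ∀ u : V, Mem 2 u → Rl u → Rl (adv u u)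

/-- **TRA** (triangular fields). `m · adv(u,u)(k) = ∑_l (u(l) · i p) (m · u(p))`, `p = k - l`.
If `m × p ≠ 0` then `m · u(p) = 0`; otherwise `p = (p·m) m/|m|²`, `u(l)·p = (p·m)(m·u(l))/|m|²`,
which is zero if `m × l ≠ 0`; otherwise `m × k = 0`. -/
def TRAStmt : Prop :=
  ∀ (m : ℝ × ℝ) (u : V), m ≠ 0 → Mem 2 u → Tri m u → Tri m (adv u u)

/-! ### Paths -/

/-- **CON** (continuity of coefficients and of the norm). -/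
def CONStmt : Prop :=
  ∀ (s T : ℝ) (G : ℝ → V), Cts s T G →
    (∀ j k, ContinuousOn (fun t => G t j k) (Set.Icc 0 T)) ∧
    ContinuousOn (fun t => nsq s (G t)) (Set.Icc 0 T)

/-- **ADC**. `adv a a - adv b b = adv (a - b) a + adv b (a - b)` and `BIL`. -/
def ADCStmt : Prop :=
  ∀ (s T : ℝ) (u : ℝ → V), 2 ≤ s → Cts s T u → Cts (s - 2) T (fun t => adv (u t) (u t))

/-- **VOC** (scalar linear equation, variation of constants, both directions). -/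
def VOCStmt : Prop :=
  ∀ (lam T : ℝ) (f g : ℝ → ℂ), 0 ≤ T → ContinuousOn g (Set.Icc 0 T) →
    ((∀ t ∈ Set.Icc 0 T, HasDerivWithinAt f (-((lam : ℝ) : ℂ) * f t + g t) (Set.Icc 0 T) t) ↔
      ∀ t ∈ Set.Icc 0 T, f t = (Real.exp (-lam * t) : ℂ) * f 0 +
        ∫ r in (0 : ℝ)..t, (Real.exp (-lam * (t - r)) : ℂ) * g r)

/-- **SGC** (the semigroup). Continuity: dominated convergence for sums. -/
def SGCStmt : Prop :=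
  ∀ (ν s T : ℝ) (u : V), 0 < ν → 0 ≤ T → Mem s u →
    Cts s T (fun t => sgr ν t u) ∧ ∀ t : ℝ, 0 ≤ t → nsq s (sgr ν t u) ≤ nsq s u

/-- **DUB** (Duhamel bound). For each `k`, with `q = |k|²`, Cauchy - Schwarz in time:
`|∫ e^(-λ(t-r)) G|² ≤ min (t, 1/(2λ)) ∫_0^t |G|²`, `λ = ν q²`, and
`(1+q)² min (T, 1/(2 ν q²)) ≤ T + 2/ν` (`q = 0` or `q ≥ 1`).  Sum over `k` (Tonelli). -/
def DUBStmt : Prop :=
  ∀ (ν s T : ℝ) (G : ℝ → V), 0 < ν → 0 ≤ T → Cts (s - 2) T G →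
    ∀ t ∈ Set.Icc 0 T, Mem s (duh ν G t) ∧
      nsq s (duh ν G t) ≤ (T + 2 / ν) * ∫ r in (0 : ℝ)..t, nsq (s - 2) (G r)

/-- **DUC** (the Duhamel term is continuous). Finitely many coefficients: continuous; the rest of
the sum is at most `(T + 2/ν) ∫_0^T (rest of nsq (s-2) (G r)) dr`, uniformly in `t`, which tends to
`0` (dominated convergence). -/
def DUCStmt : Prop :=
  ∀ (ν s T : ℝ) (G : ℝ → V), 0 < ν → 0 ≤ T → Cts (s - 2) T G → Cts s T (duh ν G)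

/-- **MLD** (mild form). `VOC` for every coefficient. -/
def MLDStmt : Prop :=
  ∀ (ν s T : ℝ) (u : ℝ → V), 0 < ν → 2 ≤ s → 0 ≤ T →
    (Sol ν s T u ↔ Cts s T u ∧ ∀ t ∈ Set.Icc 0 T,
      u t = sgr ν t (u 0) - duh ν (fun r => adv (u r) (u r)) t)

/-- **DIS** (`u ∈ L²(0,T; H^(s+2))`). For each `k ≠ 0`, `λ = ν |k|⁴`, `g = adv (u) (u) j k`:
`d/dt |u|² = -2 λ |u|² - 2 Re (conj u g) ≤ -λ |u|² + |g|²/λ`, so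
`λ ∫ |u|² ≤ |u(0)|² + (1/λ) ∫ |g|²`; multiply by `(1+q)^(s+2)/λ`
(`(1+q)²/(ν q²) ≤ 4/ν`, `(1+q)⁴/(ν² q⁴) ≤ 16/ν²`); sum. `k = 0`: bounded. -/
def DISStmt : Prop :=
  ∀ (ν s T : ℝ) (u : ℝ → V), 0 < ν → 2 ≤ s → 0 ≤ T → Sol ν s T u → ∀ j : Fin 2,
    ∫⁻ t in Set.Icc 0 T, ∑' k : Z2, ENNReal.ofReal ((1 + sq k) ^ (s + 2) * ‖u t j k‖ ^ 2) ≠ ⊤

/-- **GRW** (Gronwall). -/
def GRWStmt : Prop :=
  ∀ (T a : ℝ) (φ β : ℝ → ℝ), 0 ≤ T → ContinuousOn φ (Set.Icc 0 T) →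
    ContinuousOn β (Set.Icc 0 T) → (∀ t ∈ Set.Icc 0 T, 0 ≤ β t) →
    (∀ t ∈ Set.Icc 0 T, φ t ≤ a + ∫ r in (0 : ℝ)..t, β r * φ r) →
    ∀ t ∈ Set.Icc 0 T, φ t ≤ a * Real.exp (∫ r in (0 : ℝ)..t, β r)

/-! ### Existence, uniqueness, continuation -/

/-- **ISO** (`ℓ²` and `H^s`). -/
def ISOStmt : Prop :=
  ∀ s : ℝ, (∀ f : E, Mem s (toV s f) ∧ nsq s (toV s f) = ‖f‖ ^ 2) ∧
    (∀ u : V, Mem s u → ∃ f : E, toV s f = u) ∧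
    (∀ f g : E, toV s (f - g) = toV s f - toV s g)

/-- **PTH** (paths in `ℓ²` and in `H^s`), from `ISO`. -/
def PTHStmt : Prop :=
  ∀ (s T : ℝ) (u : ℝ → V), 0 ≤ T →
    (Cts s T u ↔ ∃ g : C(Set.Icc (0 : ℝ) T, E), ∀ t : Set.Icc (0 : ℝ) T, toV s (g t) = u t)

/-- **LOC** (local existence). Fixed point of `g ↦ sgr ν t u₀ - duh ν (adv g g)` in
`{g ∈ C([0,τ], E) : ‖g t‖² ≤ 4 R + 4, and Rl, Tri m if u₀ has it}` (closed: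
`ContractingWith.exists_fixedPoint'`), `PTH`, `ISO`, `SGC`, `DUB`, `DUC`, `BIL`, `LIN`, `ADC`,
`REA`, `TRA`, `MLD`. Self map: `nsq ≤ 2 R + 2 (τ + 2/ν) τ C' (4R+4)²`; contraction: the difference
of two images has `nsq ≤ (τ + 2/ν) τ C'' (4R+4) sup nsq (difference)`. -/
def LOCStmt : Prop :=
  ∀ (ν s R : ℝ), 0 < ν → 2 ≤ s → 0 ≤ R → ∃ τ : ℝ, 0 < τ ∧ ∀ u₀ : V, Mem s u₀ → nsq s u₀ ≤ R →
    ∃ u : ℝ → V, Sol ν s τ u ∧ u 0 = u₀ ∧ (∀ t ∈ Set.Icc 0 τ, nsq s (u t) ≤ 4 * R + 4) ∧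
      (Rl u₀ → ∀ t ∈ Set.Icc 0 τ, Rl (u t)) ∧
      (∀ m : ℝ × ℝ, m ≠ 0 → Tri m u₀ → ∀ t ∈ Set.Icc 0 τ, Tri m (u t))

/-- **DIF** (dependence on data). `MLD` for the difference, `DUB`, `BIL`, `LIN`, `GRW`. -/
def DIFStmt : Prop :=
  ∀ (ν s T R : ℝ), 0 < ν → 2 ≤ s → 0 ≤ T → 0 ≤ R → ∃ K : ℝ, 0 ≤ K ∧
    ∀ T' ∈ Set.Icc 0 T, ∀ u v : ℝ → V, Sol ν s T' u → Sol ν s T' v →
      (∀ t ∈ Set.Icc 0 T', nsq s (u t) ≤ R ∧ nsq s (v t) ≤ R) →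
      ∀ t ∈ Set.Icc 0 T', nsq s (u t - v t) ≤ K * nsq s (u 0 - v 0)

/-- **UNQ** (uniqueness), from `DIF`, `CON` (compactness of `[0,T]`). -/
def UNQStmt : Prop :=
  ∀ (ν s T : ℝ) (u v : ℝ → V), 0 < ν → 2 ≤ s → 0 ≤ T → Sol ν s T u → Sol ν s T v →
    u 0 = v 0 → ∀ t ∈ Set.Icc 0 T, u t = v t

/-- **RES** (restriction, shift, congruence, the constant path on `[0,0]`). -/
def RESStmt : Prop :=
  (∀ (ν s T T' : ℝ) (u : ℝ → V), T' ≤ T → Sol ν s T u → Sol ν s T' u) ∧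
  (∀ (ν s T₁ T₂ : ℝ) (u : ℝ → V), 0 ≤ T₁ → Sol ν s (T₁ + T₂) u →
    Sol ν s T₂ (fun t => u (T₁ + t))) ∧
  (∀ (ν s T : ℝ) (u v : ℝ → V), (∀ t ∈ Set.Icc 0 T, u t = v t) → Sol ν s T u → Sol ν s T v) ∧
  (∀ (ν s : ℝ) (u : V), Mem s u → Sol ν s 0 (fun _ => u))

/-- **GLU** (gluing). -/
def GLUStmt : Prop :=
  ∀ (ν s T₁ T₂ : ℝ) (u v : ℝ → V), 0 ≤ T₁ → 0 ≤ T₂ → Sol ν s T₁ u → Sol ν s T₂ v →
    v 0 = u T₁ → Sol ν s (T₁ + T₂) (fun t => if t ≤ T₁ then u t else v (t - T₁))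

/-- **EXT** (continuation). Steps of the fixed length `τ(B T)` of `LOC`, `GLU`, `RES`; the
solutions on the intervals `[0,T]` agree by `UNQ`. -/
def EXTStmt : Prop :=
  ∀ (ν s : ℝ) (u₀ : V) (B : ℝ → ℝ), 0 < ν → 2 ≤ s → Mem s u₀ →
    (∀ T T' : ℝ, 0 ≤ T' → T' ≤ T → ∀ u : ℝ → V, Sol ν s T' u → u 0 = u₀ →
      (Rl u₀ → ∀ t ∈ Set.Icc 0 T', Rl (u t)) →
      (∀ m : ℝ × ℝ, m ≠ 0 → Tri m u₀ → ∀ t ∈ Set.Icc 0 T', Tri m (u t)) →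
      nsq s (u T') ≤ B T) →
    ∃ u : ℝ → V, u 0 = u₀ ∧ ∀ T : ℝ, 0 ≤ T → Sol ν s T u ∧ (Rl u₀ → Rl (u T)) ∧
      ∀ m : ℝ × ℝ, m ≠ 0 → Tri m u₀ → Tri m (u T)

/-- **STB** (stability on `[0,T]`). Let `R = 2 sup nsq s (u t) + 2`, steps of length `τ(R)` of
`LOC`; in each step `nsq s (v - u)` grows at most by the factor `K(τ, 4R+4)` of `DIF`; choose `δ`
such that it stays `≤ 1`.  `GLU`, `RES`. -/
def STBStmt : Prop :=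
  ∀ (ν s T : ℝ) (u : ℝ → V), 0 < ν → 2 ≤ s → 0 ≤ T → Sol ν s T u →
    ∃ δ K : ℝ, 0 < δ ∧ 0 ≤ K ∧ ∀ v₀ : V, Mem s v₀ → nsq s (v₀ - u 0) < δ →
      ∃ v : ℝ → V, Sol ν s T v ∧ v 0 = v₀ ∧ nsq s (v T - u T) ≤ K * nsq s (v₀ - u 0) ∧
        (Rl v₀ → ∀ t ∈ Set.Icc 0 T, Rl (v t))

/-! ### Energy -/

/-- **ENE** (energy of a linear combination of the components, means removed). Every coefficient:
`d/dt |f_k|² = -2 ν |k|⁴ |f_k|² - 2 Re (conj f_k g_k)`; integrate in time, sum over `k ≠ 0`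
(everything converges absolutely, uniformly in `t`, since `u ∈ C([0,T]; H²)`,
`adv u u ∈ C([0,T]; L²)`); the sums are continuous functions of `t`; differentiate the integral. -/
def ENEStmt : Prop :=
  ∀ (ν s T : ℝ) (u : ℝ → V), 0 < ν → 2 ≤ s → 0 ≤ T → Sol ν s T u → ∀ c : Fin 2 → ℝ,
    ContinuousOn (fun t => dsS (lin c (u t))) (Set.Icc 0 T) ∧
    ∀ t ∈ Set.Icc 0 T, HasDerivWithinAt (fun r => flS (lin c (u r)))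
      (-2 * ν * dsS (lin c (u t)) - 2 * prd (lin c (u t)) (lin c (adv (u t) (u t))))
      (Set.Icc 0 T) t

/-- **TRS** (trilinear bound). `YNG` with `p = |f̃|`, `q = |g|` and Cauchy - Schwarz;
`(∑_(k≠0) |f_k|)² ≤ ∑_(k≠0) |k|⁻⁴ · dsS f ≤ 4 cW dsS f`. -/
def TRSStmt : Prop :=
  ∀ g f : Z2 → ℂ, Summable (fun l => ‖g l‖ ^ 2) → MemS 2 f →
    (Summable fun x : Z2 × Z2 => ‖(starRingEnd ℂ) (off f x.1) * g x.2 * off f (x.1 - x.2)‖) ∧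
    ‖tr3 g f‖ ≤ √(∑' l, ‖g l‖ ^ 2) * (2 * √cW * √(dsS f)) * √(flS f)

/-- **DIV** (divergence, elementary comparisons). `|∑ k_i w_i|² ≤ |k|² |w|²`, `|k|² ≤ |k|⁴`. -/
def DIVStmt : Prop :=
  (∀ w : V, Mem 2 w → Summable (fun l => ‖dvg w l‖ ^ 2) ∧ ∑' l, ‖dvg w l‖ ^ 2 ≤ dsq w) ∧
  (∀ (d : ℝ × ℝ) (f : Z2 → ℂ), MemS 2 f →
    Summable (fun l : Z2 => ‖Complex.I * ((d.1 * l.1 + d.2 * l.2 : ℝ) : ℂ) * f l‖ ^ 2) ∧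
    ∑' l : Z2, ‖Complex.I * ((d.1 * l.1 + d.2 * l.2 : ℝ) : ℂ) * f l‖ ^ 2 ≤
      (d.1 ^ 2 + d.2 ^ 2) * dsS f) ∧
  (∀ f : Z2 → ℂ, MemS 2 f → 0 ≤ flS f ∧ flS f ≤ dsS f ∧ flS f ≤ nqS 2 f ∧ dsS f ≤ nqS 2 f ∧
    nqS 2 f ≤ ‖f 0‖ ^ 2 + 4 * dsS f)

/-- **CAN** (integration by parts). `S = ∑_{p,l} conj f̃(p+l) (w(l)·i p) f̃(p)` (the term `p = 0`
vanishes); `conj S` after `p ↦ p + l`, `l ↦ -l` and `w(-l) = conj w(l)` is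
`-∑ conj f̃(p+l) (w(l) · i (p+l)) f̃(p)`, so `2 Re S = - tr3 (dvg w) f`. -/
def CANStmt : Prop :=
  ∀ (w : V) (f : Z2 → ℂ), Mem 2 w → Rl w → MemS 2 f →
    2 * prd f (dot w f) = -(tr3 (dvg w) f).re

/-- **SYM** (self interaction). `w i l = d_i f l` is real, `dvg w = g`; `CAN`:
`2 prd f (dot w f) = -Re tr3 g f`.  On the other hand (swap `l` and `k - l`; the term `l = 0` is
`f(0) i d·k |f̃(k)|²`, `f(0)` real) `prd f (dot w f) = Re tr3 g f`.  So both are `0`. -/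
def SYMStmt : Prop :=
  ∀ (d : ℝ × ℝ) (f : Z2 → ℂ), MemS 2 f → (∀ k, f (-k) = (starRingEnd ℂ) (f k)) →
    (tr3 (fun l : Z2 => Complex.I * ((d.1 * l.1 + d.2 * l.2 : ℝ) : ℂ) * f l) f).re = 0

/-- **FLU** (small fluctuations). `ENE` for both components, `CAN` (`w = u`, `f = u_j`), `TRS`,
`DIV`: `F' ≤ -(2 ν - 4 √cW √F) D`, `F = flu`, `D = dsq ≥ F`. -/
def FLUStmt : Prop :=
  ∃ c₀ : ℝ, 0 < c₀ ∧ ∀ (ν s T : ℝ) (u : ℝ → V), 0 < ν → 2 ≤ s → 0 ≤ T → Sol ν s T u →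
    (∀ t ∈ Set.Icc 0 T, Rl (u t)) → flu (u 0) ≤ (c₀ * ν) ^ 2 →
    ∀ t ∈ Set.Icc 0 T, flu (u t) ≤ flu (u 0) * Real.exp (-ν * t) ∧
      ∫ r in (0 : ℝ)..t, dsq (u r) ≤ flu (u 0) / ν

/-- **TRB** (triangular fields: no energy exchange for `b = m · u`). If `b(p) ≠ 0` then `p ∥ m` and
`u(l)·p = (p·m) b(l)/|m|² = w(l)·p` with `w i l = m_i b(l)/|m|²`; so `dot u b = dot w b`;
`dvg w l = i (m·l) b(l)/|m|²`; `CAN`, `SYM`. -/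
def TRBStmt : Prop :=
  ∀ (m : ℝ × ℝ) (u : V), m ≠ 0 → Mem 2 u → Rl u → Tri m u →
    prd (lin ![m.1, m.2] u) (dot u (lin ![m.1, m.2] u)) = 0

/-- **TRC** (the other component `a = e · u`, `e = (-m₂, m₁)`). `CAN` with `w = u`;
`dvg u = (i (e·l) a + i (m·l) b)/|m|²`; the first part drops out by `SYM`; `TRS`, `DIV`. -/
def TRCStmt : Prop :=
  ∀ (m : ℝ × ℝ) (u : V), m ≠ 0 → Mem 2 u → Rl u → Tri m u →
    -2 * prd (lin ![-m.2, m.1] u) (dot u (lin ![-m.2, m.1] u)) ≤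
      (1 / √(m.1 ^ 2 + m.2 ^ 2)) * √(dsS (lin ![m.1, m.2] u)) *
        (2 * √cW * √(dsS (lin ![-m.2, m.1] u))) * √(flS (lin ![-m.2, m.1] u))

/-- **TRM** (a priori bound for triangular solutions). `|m|² flu u = flS a + flS b`, the same for
`dsq`; `ENE`, `LIN`, `TRB`: `B' = -2 ν D_b`, so `2 ν ∫ D_b ≤ B(0)`; `TRC`:
`A' ≤ -ν D_a + (cW/(ν |m|²)) D_b A`, so `A(t) ≤ A(0) exp (-ν t + (cW/(ν |m|²)) ∫ D_b)`. -/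
def TRMStmt : Prop :=
  ∀ (ν X : ℝ) (m : ℝ × ℝ), 0 < ν → 0 ≤ X → m ≠ 0 → ∃ K : ℝ, 0 ≤ K ∧
    ∀ (s T : ℝ) (u : ℝ → V), 2 ≤ s → 0 ≤ T → Sol ν s T u →
      (∀ t ∈ Set.Icc 0 T, Rl (u t) ∧ Tri m (u t)) → flu (u 0) ≤ X →
      ∀ t ∈ Set.Icc 0 T, flu (u t) ≤ K * Real.exp (-ν * t) ∧
        ∫ r in (0 : ℝ)..t, dsq (u r) ≤ K

/-- **MEA** (the means). `|adv u u j 0| ≤ ∑_l |l| |u(l)| |u_j(-l)| ≤ dsq u`. -/
def MEAStmt : Prop :=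
  ∀ (ν s T : ℝ) (u : ℝ → V), 0 < ν → 2 ≤ s → 0 ≤ T → Sol ν s T u →
    ContinuousOn (fun t => dsq (u t)) (Set.Icc 0 T) ∧
    ∀ (j : Fin 2), ∀ t ∈ Set.Icc 0 T, ‖u t j 0 - u 0 j 0‖ ≤ 2 * ∫ r in (0 : ℝ)..t, dsq (u r)

/-- **HSB** (`H^s` bound). `MLD`, `DUB`, `BIL`:
`nsq s (u t) ≤ 2 X + 4 C (T + 2/ν) ∫_0^t nsq 2 (u r) nsq s (u r) dr`; `GRW`;
`nsq 2 u ≤ ∑ |u_j(0)|² + 4 dsq u` (`DIV`), means by `MEA`. -/
def HSBStmt : Prop :=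
  ∀ (ν s T M X : ℝ), 0 < ν → 2 ≤ s → 0 ≤ T → 0 ≤ M → 0 ≤ X → ∃ R : ℝ, 0 ≤ R ∧
    ∀ T' ∈ Set.Icc 0 T, ∀ u : ℝ → V, Sol ν s T' u → nsq s (u 0) ≤ X →
      ∫ r in (0 : ℝ)..T', dsq (u r) ≤ M → nsq s (u T') ≤ R

/-! ### Final statements -/

/-- a strong solution on `[0,T]`: `C([0,T]; H^s) ∩ L²(0,T; H^(s+2))`, real valued -/
structure Strong (ν s T : ℝ) (u : ℝ → V) : Prop where
  sol : Sol ν s T u
  real : ∀ t ∈ Set.Icc 0 T, Rl (u t)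
  diss : ∀ j : Fin 2,
    ∫⁻ t in Set.Icc 0 T, ∑' k : Z2, ENNReal.ofReal ((1 + sq k) ^ (s + 2) * ‖u t j k‖ ^ 2) ≠ ⊤

/-- `v₀` has a global strong solution, unique on every `[0,T]`, whose fluctuation tends to `0` -/
def Global (ν s : ℝ) (v₀ : V) : Prop :=
  ∃ v : ℝ → V, v 0 = v₀ ∧ (∀ T : ℝ, 0 ≤ T → Strong ν s T v ∧
    ∀ w : ℝ → V, Strong ν s T w → w 0 = v₀ → ∀ t ∈ Set.Icc 0 T, w t = v t) ∧
    Filter.Tendsto (fun t => flu (v t)) Filter.atTop (nhds 0)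

/-- **GLB** (from a bound for `∫ dsq`), by `EXT`, `HSB`, `DIS`, `UNQ`. -/
def GLBStmt : Prop :=
  ∀ (ν s M : ℝ) (u₀ : V), 0 < ν → 2 ≤ s → 0 ≤ M → Mem s u₀ → Rl u₀ →
    (∀ (T : ℝ) (u : ℝ → V), 0 ≤ T → Sol ν s T u → u 0 = u₀ →
      (∀ t ∈ Set.Icc 0 T, Rl (u t)) →
      (∀ m : ℝ × ℝ, m ≠ 0 → Tri m u₀ → ∀ t ∈ Set.Icc 0 T, Tri m (u t)) →
      ∫ r in (0 : ℝ)..T, dsq (u r) ≤ M) →
    ∃ v : ℝ → V, v 0 = u₀ ∧ ∀ T : ℝ, 0 ≤ T → Strong ν s T v ∧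
      (∀ m : ℝ × ℝ, m ≠ 0 → Tri m u₀ → Tri m (v T)) ∧
      ∀ w : ℝ → V, Strong ν s T w → w 0 = u₀ → ∀ t ∈ Set.Icc 0 T, w t = v t

/-- **SML** (small fluctuations: global), from `GLB` and `FLU`. -/
def SMLStmt : Prop :=
  ∃ c₀ : ℝ, 0 < c₀ ∧ ∀ (ν s : ℝ) (v₀ : V), 0 < ν → 2 ≤ s → Mem s v₀ → Rl v₀ →
    flu v₀ ≤ (c₀ * ν) ^ 2 → Global ν s v₀

/-- **FIN** (the theorem). `GLB` and `TRM`: global solution `u` with data `u₀`; for large `T`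
`flu (u T)` is small; `STB`: `v` on `[0,T]` with `flu (v T)` small; `SML` for `v T`; `GLU`, `UNQ`,
`DIS`. -/
def FINStmt : Prop :=
  ∀ (ν s : ℝ) (m : ℝ × ℝ) (u₀ : V), 0 < ν → 2 ≤ s → m ≠ 0 → Mem s u₀ → Rl u₀ → Tri m u₀ →
    ∃ δ : ℝ, 0 < δ ∧ ∀ v₀ : V, Mem s v₀ → Rl v₀ → nsq s (v₀ - u₀) < δ → Global ν s v₀

end HB
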