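import Pool.Agent.H61.HB.Stmts

/-!
Project HB, second batch: stability in the weak norm `H^(-1)`.  Row XXX = def XXXStmt : Prop.
In the doc strings `w = v - u`, `N = hm w`, `P = grd w`, `μ = mu w`, `f² = flu u`, `g² = grd u`.
-/

set_option autoImplicit false

namespace HB

/-- homogeneous `H^(-1)` norm squared, without the mean (`x / 0 = 0`) -/
noncomputable def hmS (f : Z2 → ℂ) : ℝ := ∑' k, ‖off f k‖ ^ 2 / sq k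

/-- `L²` norm squared of the gradient -/
noncomputable def grS (f : Z2 → ℂ) : ℝ := ∑' k, sq k * ‖f k‖ ^ 2

noncomputable def hm (u : V) : ℝ := ∑ j, hmS (u j)
noncomputable def grd (u : V) : ℝ := ∑ j, grS (u j)

/-- the means, squared -/
noncomputable def mu (u : V) : ℝ := ∑ j, ‖u j 0‖ ^ 2

/-- **GRF** (elementary facts for `f` in `H²`). `sq k = 0` or `sq k ≥ 1`; the interpolation
`flS² ≤ hmS * grS` is Cauchy - Schwarz; `‖dvg w l‖² ≤ sq l * |w(l)|²`;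
`1/sq k ≤ 2/(1 + sq k)` for `k ≠ 0`. -/
def GRFStmt : Prop :=
  (∀ f : Z2 → ℂ, MemS 2 f →
    Summable (fun k => ‖f k‖ ^ 2) ∧ Summable (fun k => sq k * ‖f k‖ ^ 2) ∧
    Summable (fun k => sq k ^ 2 * ‖f k‖ ^ 2) ∧ Summable (fun k => ‖off f k‖ ^ 2 / sq k) ∧
    Summable (fun k => ‖off f k‖ ^ 2) ∧
    0 ≤ hmS f ∧ hmS f ≤ flS f ∧ flS f ≤ grS f ∧ grS f ≤ dsS f ∧ flS f ^ 2 ≤ hmS f * grS f) ∧
  (∀ w : V, Mem 2 w → Summable (fun l => ‖dvg w l‖ ^ 2) ∧ ∑' l, ‖dvg w l‖ ^ 2 ≤ grd w ∧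
    0 ≤ hm w ∧ hm w ≤ flu w ∧ flu w ≤ grd w ∧ grd w ≤ dsq w ∧ flu w ^ 2 ≤ hm w * grd w ∧
    0 ≤ mu w ∧ hm w + mu w ≤ 2 * nsq (-1) w) ∧
  (∀ u v : V, Mem 2 u → Mem 2 v → grd v ≤ 2 * grd (v - u) + 2 * grd u)

/-- **GRC** (continuity in time). For `Sol` (`s ≥ 2`) the paths are continuous into `H²`, and so is
the difference; all these quadratic functionals are continuous for the `H²` norm. -/
def GRCStmt : Prop :=
  ∀ (ν s T : ℝ) (u v : ℝ → V), 2 ≤ s → Sol ν s T u → Sol ν s T v →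
    ContinuousOn (fun t => flu (u t)) (Set.Icc 0 T) ∧
    ContinuousOn (fun t => grd (u t)) (Set.Icc 0 T) ∧
    ContinuousOn (fun t => dsq (u t)) (Set.Icc 0 T) ∧
    ContinuousOn (fun t => hm (v t - u t)) (Set.Icc 0 T) ∧
    ContinuousOn (fun t => mu (v t - u t)) (Set.Icc 0 T) ∧
    ContinuousOn (fun t => grd (v t - u t)) (Set.Icc 0 T)

/-- **WEN** (weighted energy of the difference of two solutions). The same proof as `ENE`: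
termwise derivative, integrate in time, sum over `k` (absolutely convergent, uniformly in `t`,
as `u, v ∈ C([0,T]; H²)`, `adv u u, adv v v ∈ C([0,T]; L²)`), differentiate the integral of the
continuous function. -/
def WENStmt : Prop :=
  ∀ (ν s T : ℝ) (u v : ℝ → V) (ω : Z2 → ℝ), 0 < ν → 2 ≤ s → 0 ≤ T → Sol ν s T u →
    Sol ν s T v → (∀ k, 0 ≤ ω k ∧ ω k ≤ 1) → ∀ j : Fin 2, ∀ t ∈ Set.Icc 0 T,
    HasDerivWithinAt (fun r => ∑' k, ω k * ‖v r j k - u r j k‖ ^ 2)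
      (∑' k, ω k * (-2 * ν * sq k ^ 2 * ‖v t j k - u t j k‖ ^ 2 -
        2 * ((starRingEnd ℂ) (v t j k - u t j k) *
          (adv (v t) (v t) j k - adv (u t) (u t) j k)).re)) (Set.Icc 0 T) t

/-- **TWA** (trilinear bound with the weight `1/|k|²`). `θ(k) = ‖off f k‖/sq k` is in `ℓ¹` with norm
`≤ (∑_(k≠0) |k|⁻⁴)^(1/2) √(flS f) ≤ 2 √cW √(flS f)`; `∑_k θ(k) ∑_l a(l) b(k-l) ≤ ‖θ‖₁ ‖a‖₂ ‖b‖₂`
(Cauchy - Schwarz in `l`). -/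
def TWAStmt : Prop :=
  ∀ (f : Z2 → ℂ) (a b : Z2 → ℝ), MemS 2 f → (∀ k, 0 ≤ a k) → (∀ k, 0 ≤ b k) →
    Summable (fun k => a k ^ 2) → Summable (fun k => b k ^ 2) →
    Summable (fun x : Z2 × Z2 => ‖off f x.1‖ / sq x.1 * (a x.2 * b (x.1 - x.2))) ∧
    ∑' x : Z2 × Z2, ‖off f x.1‖ / sq x.1 * (a x.2 * b (x.1 - x.2)) ≤
      2 * √cW * √(flS f) * (√(∑' k, a k ^ 2) * √(∑' k, b k ^ 2))

/-- **TWB** (transport term). `z` real: the mean of `z` gives `(1/|k|²) |f(k)|² i z(0)·k`, purely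
imaginary; the rest by `TWA` with `a(l) = |z̃(l)|` (euclidean norm, `∑ a² = flu z`),
`b(p) = |p| |f(p)|`. -/
def TWBStmt : Prop :=
  ∀ (z : V) (f : Z2 → ℂ), Mem 2 z → Rl z → MemS 2 f →
    |∑' k, ((starRingEnd ℂ) (off f k) * dot z f k).re / sq k| ≤
      2 * √cW * √(flS f) * (√(flu z) * √(grS f))

/-- **TWC** (production term). The mean of `w` gives at most `∑ (1/|k|²) |f(k)| |w(0)| |k| |h(k)| ≤
√(mu w) √(grS h) √(hmS f)`; the rest by `TWA`. -/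
def TWCStmt : Prop :=
  ∀ (w : V) (f h : Z2 → ℂ), Mem 2 w → MemS 2 f → MemS 2 h →
    |∑' k, ((starRingEnd ℂ) (off f k) * dot w h k).re / sq k| ≤
      2 * √cW * √(flS f) * (√(flu w) * √(grS h)) + √(mu w) * (√(grS h) * √(hmS f))

/-- **HMW** (nonlinear term in `H^(-1)`), `w = v - u`. `adv v v - adv u u = adv w w + adv w u +
adv u w` (`LIN`); `TWB` (`z = w` and `z = u`, `f = w_j`), `TWC` (`h = u_j`); Cauchy - Schwarz for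
the sum over `j`; `flu w ≤ √N √P`. -/
def HMWStmt : Prop :=
  ∃ C : ℝ, 0 < C ∧ ∀ u v : V, Mem 2 u → Mem 2 v → Rl u → Rl v →
    |∑ j, ∑' k, ((starRingEnd ℂ) (off ((v - u) j) k) *
        (adv v v j k - adv u u j k)).re / sq k| ≤
      C * (√(hm (v - u)) * grd (v - u) +
        √(flu u) * √(√(hm (v - u)) * √(grd (v - u))) * √(grd (v - u)) +
        √(grd u) * (√(hm (v - u)) * √(grd (v - u))) +
        √(mu (v - u)) * (√(grd u) * √(hm (v - u))))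

/-- **MNW** (the means). `dot z b 0 = ∑_l (z(l) · i(-l)) b(-l)`, so `|dot z b 0| ≤ √(flu z) √(grS b)`;
Cauchy - Schwarz for the sum over `j`. -/
def MNWStmt : Prop :=
  ∃ C : ℝ, 0 < C ∧ ∀ u v : V, Mem 2 u → Mem 2 v →
    |∑ j, ((starRingEnd ℂ) ((v - u) j 0) * (adv v v j 0 - adv u u j 0)).re| ≤
      C * √(mu (v - u)) * (√(flu (v - u)) * √(grd (v - u)) + √(flu (v - u)) * √(grd u) +
        √(flu u) * √(grd (v - u)))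

/-- **NEI** (differential inequality), `Y = hm w + mu w`. `WEN` with `ω k = 1/sq k` (`k ≠ 0`, else
`0`) and with `ω k = 1` (`k = 0`, else `0`): `Y' = -2 ν P - 2 H - 2 M`, `H` and `M` the sums in
`HMW`, `MNW`.  With `N ≤ P`, `flu w ≤ P`, `f² ≤ g²`, Young:
`2 C f (N P)^(1/4) √P ≤ ν P/8 + C' f⁴ N/ν³`, `2 C g √N √P ≤ ν P/8 + C' g² N/ν`,
`2 C √μ g √N ≤ 2 C √μ g √P ≤ ν P/8 + C' g² μ/ν`, `2 C √N P ≤ ν P/8`; `2 C √μ P ≤ ν P/8`,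
`2 C √μ g √P, 2 C √μ f √P ≤ ν P/8 + C' g² μ/ν`. -/
def NEIStmt : Prop :=
  ∃ C c : ℝ, 0 < C ∧ 0 < c ∧ ∀ (ν s T : ℝ) (u v : ℝ → V), 0 < ν → 2 ≤ s → 0 ≤ T →
    Sol ν s T u → Sol ν s T v → (∀ t ∈ Set.Icc 0 T, Rl (u t) ∧ Rl (v t)) →
    ∀ t ∈ Set.Icc 0 T, ∃ Y' : ℝ,
      HasDerivWithinAt (fun r => hm (v r - u r) + mu (v r - u r)) Y' (Set.Icc 0 T) t ∧
      (hm (v t - u t) + mu (v t - u t) ≤ (c * ν) ^ 2 →
        Y' ≤ -ν * grd (v t - u t) + C * (flu (u t) ^ 2 / ν ^ 3 + grd (u t) / ν) *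
          (hm (v t - u t) + mu (v t - u t)))

/-- **STW** (stability in `H^(-1)`). `h = C (flu²/ν³ + grd/ν)` for `u`. As long as
`Y ≤ (c ν)²`: `Y' ≤ -ν P + h Y`, so `Y ≤ Y(0) exp (∫ h) ≤ Y(0) exp L < (c ν)²`: this holds for all
`t ∈ [0,T]`; then `ν ∫ P ≤ Y(0) + ∫ h Y ≤ Y(0) (1 + L exp L) ≤ Y(0) exp (2 L)`. -/
def STWStmt : Prop :=
  ∃ C c : ℝ, 0 < C ∧ 0 < c ∧ ∀ (ν s T L : ℝ) (u v : ℝ → V), 0 < ν → 2 ≤ s → 0 ≤ T →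
    Sol ν s T u → Sol ν s T v → (∀ t ∈ Set.Icc 0 T, Rl (u t) ∧ Rl (v t)) →
    C * (∫ r in (0 : ℝ)..T, (flu (u r) ^ 2 / ν ^ 3 + grd (u r) / ν)) ≤ L →
    (hm (v 0 - u 0) + mu (v 0 - u 0)) * Real.exp L < (c * ν) ^ 2 →
    ∫ r in (0 : ℝ)..T, grd (v r - u r) ≤
      (hm (v 0 - u 0) + mu (v 0 - u 0)) * Real.exp (2 * L) / ν

/-- **LGR** (`L²` energy with the gradient). `ENE` for both components, `CAN`, `TRS` with
`∑ ‖dvg v‖² ≤ grd v` (`GRF`): `F' ≤ -2 ν D + 2 √cW √(grd v) √D √F ≤ -ν D + (cW/ν) grd v F`,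
`D ≥ F`. -/
def LGRStmt : Prop :=
  ∃ C : ℝ, 0 < C ∧ ∀ (ν s T : ℝ) (v : ℝ → V), 0 < ν → 2 ≤ s → 0 ≤ T → Sol ν s T v →
    (∀ t ∈ Set.Icc 0 T, Rl (v t)) → ∀ t ∈ Set.Icc 0 T,
      flu (v t) ≤ flu (v 0) * Real.exp (-ν * t + C / ν * ∫ r in (0 : ℝ)..t, grd (v r)) ∧
      ∫ r in (0 : ℝ)..t, dsq (v r) ≤
        flu (v 0) / ν * Real.exp (2 * (C / ν * ∫ r in (0 : ℝ)..t, grd (v r)))

/-- **CRB** (core). `GLB` for `v₀`: for every `Sol` `v` on `[0,T]` from `v₀`, `STW` bounds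
`∫ grd (v - u)`, so `∫ grd v ≤ 2 ∫ grd (v - u) + 2 ν L` and `LGR` bounds `∫ dsq v`; `LGR` also gives
`flu (v t) → 0`. -/
def CRBStmt : Prop :=
  ∃ C c : ℝ, 0 < C ∧ 0 < c ∧ ∀ (ν s L : ℝ) (u : ℝ → V) (v₀ : V), 0 < ν → 2 ≤ s → 0 ≤ L →
    (∀ T : ℝ, 0 ≤ T → Sol ν s T u ∧ ∀ t ∈ Set.Icc 0 T, Rl (u t)) →
    (∀ T : ℝ, 0 ≤ T →
      ∫ r in (0 : ℝ)..T, (flu (u r) ^ 2 / ν ^ 3 + grd (u r) / ν) ≤ L) →
    Mem s v₀ → Rl v₀ →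
    (hm (v₀ - u 0) + mu (v₀ - u 0)) * Real.exp (C * L) < (c * ν) ^ 2 → Global ν s v₀

/-- **TRU** (`TRM` with `K` independent of the direction). In the proof of `TRM` everything depends
on `m` only through `A(0)/|m|², B(0)/|m|² ≤ X`. -/
def TRUStmt : Prop :=
  ∀ (ν X : ℝ), 0 < ν → 0 ≤ X → ∃ K : ℝ, 0 ≤ K ∧
    ∀ (m : ℝ × ℝ) (s T : ℝ) (u : ℝ → V), m ≠ 0 → 2 ≤ s → 0 ≤ T → Sol ν s T u →
      (∀ t ∈ Set.Icc 0 T, Rl (u t) ∧ Tri m (u t)) → flu (u 0) ≤ X →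
      ∀ t ∈ Set.Icc 0 T, flu (u t) ≤ K * Real.exp (-ν * t) ∧
        ∫ r in (0 : ℝ)..t, dsq (u r) ≤ K

/-- **FNA** (uniform `H^(-1)` neighbourhoods of all triangular fields), from `TRU`, `GLB`, `CRB`. -/
def FNAStmt : Prop :=
  ∀ ν X : ℝ, 0 < ν → 0 ≤ X → ∃ δ : ℝ, 0 < δ ∧ ∀ (s : ℝ) (m : ℝ × ℝ) (u₀ v₀ : V), 2 ≤ s → m ≠ 0 →
    Mem s u₀ → Rl u₀ → Tri m u₀ → flu u₀ ≤ X → Mem s v₀ → Rl v₀ →
    nsq (-1) (v₀ - u₀) < δ → Global ν s v₀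

/-- **FNB** (the set of good data is open in `H^(-1)`). `flu (u t) → 0`, so from some time on `FLU`
applies (shift: `RES`) and `∫_0^T dsq (u)` is bounded; `flu (u t)` is bounded (`GRC`); `CRB`. -/
def FNBStmt : Prop :=
  ∀ (ν s : ℝ) (u₀ : V), 0 < ν → 2 ≤ s → Mem s u₀ → Rl u₀ → Global ν s u₀ →
    ∃ δ : ℝ, 0 < δ ∧ ∀ v₀ : V, Mem s v₀ → Rl v₀ → nsq (-1) (v₀ - u₀) < δ → Global ν s v₀

end HB
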