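import Pool.Agent.H61.HB.Stmts2

set_option autoImplicit false

namespace HB

theorem fna_thm (hTRU : TRUStmt) (hGLB : GLBStmt) (hCRB : CRBStmt) (hGRF : GRFStmt)
    (hGRC : GRCStmt) (hMMB : MMBStmt) : FNAStmt := by
  obtain ⟨C, c, hC, hc, hcrb⟩ := hCRB
  intro ν X hν hX
  obtain ⟨K, hK, hKb⟩ := hTRU ν X hν hX
  set L : ℝ := K * K / ν ^ 3 + K / ν with hL
  have hL0 : 0 ≤ L := by positivity
  refine ⟨(c * ν) ^ 2 / (4 * Real.exp (C * L)), by positivity, ?_⟩
  intro s m u₀ v₀ hs hm0 hmem hreal htri hXu hv₀ hv₀r hclose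
  obtain ⟨u, hu0, hu⟩ := hGLB ν s K u₀ hν hs hK hmem hreal (by
    intro T u hT hsol hu0 hr ht
    exact (hKb m s T u hm0 hs hT hsol (fun t h => ⟨hr t h, ht m hm0 htri t h⟩)
      (by rw [hu0]; exact hXu) T ⟨hT, le_refl T⟩).2)
  have hbd : ∀ t : ℝ, 0 ≤ t → flu (u t) ≤ K * Real.exp (-ν * t) ∧
      ∫ r in (0 : ℝ)..t, dsq (u r) ≤ K := by
    intro t ht
    exact hKb m s t u hm0 hs ht (hu t ht).1.sol
      (fun r h => ⟨(hu t ht).1.real r h, (hu r h.1).2.1 m hm0 htri⟩)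
      (by rw [hu0]; exact hXu) t ⟨ht, le_refl t⟩
  have hsm : ∀ t : ℝ, 0 ≤ t → Mem 2 (u t) := by
    intro t ht
    exact (hMMB.2.2.2.2.1 2 s (u t) hs ((hu t ht).1.sol.cts.1 t ⟨ht, le_refl t⟩)).1
  refine hcrb ν s L u v₀ hν hs hL0 (fun T hT => ⟨(hu T hT).1.sol, (hu T hT).1.real⟩) ?_ hv₀ hv₀r ?_
  · intro T hT
    have hg := hGRC ν s T u u hs (hu T hT).1.sol (hu T hT).1.sol
    have hint1 : IntervalIntegrable (fun r => flu (u r) ^ 2 / ν ^ 3 + grd (u r) / ν)
        MeasureTheory.volume 0 T := by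
      apply ContinuousOn.intervalIntegrable
      rw [Set.uIcc_of_le hT]
      exact ((hg.1.pow 2).div_const _).add (hg.2.1.div_const _)
    have hint2 : IntervalIntegrable (fun r => (K / ν ^ 3 + 1 / ν) * dsq (u r))
        MeasureTheory.volume 0 T := by
      apply ContinuousOn.intervalIntegrable
      rw [Set.uIcc_of_le hT]
      exact hg.2.2.1.const_smul (K / ν ^ 3 + 1 / ν)
    have hle : ∫ r in (0 : ℝ)..T, (flu (u r) ^ 2 / ν ^ 3 + grd (u r) / ν) ≤
        ∫ r in (0 : ℝ)..T, (K / ν ^ 3 + 1 / ν) * dsq (u r) := by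
      apply intervalIntegral.integral_mono_on hT hint1 hint2
      intro r hr
      obtain ⟨-, -, -, h1, h2, h3, -⟩ := hGRF.2.1 (u r) (hsm r hr.1)
      have h0 : 0 ≤ flu (u r) := by
        obtain ⟨-, -, h4, h5, -⟩ := hGRF.2.1 (u r) (hsm r hr.1)
        linarith
      have h4 : flu (u r) ≤ K := by
        refine (hbd r hr.1).1.trans ?_
        have : Real.exp (-ν * r) ≤ 1 := by
          rw [Real.exp_le_one_iff]
          have := mul_nonneg hν.le hr.1
          linarith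
        nlinarith
      have h5 : flu (u r) ^ 2 ≤ K * dsq (u r) := by nlinarith
      have h6 : flu (u r) ^ 2 / ν ^ 3 ≤ K / ν ^ 3 * dsq (u r) := by
        rw [div_mul_eq_mul_div]
        gcongr
      have h7 : grd (u r) / ν ≤ 1 / ν * dsq (u r) := by
        rw [div_mul_eq_mul_div, one_mul]
        gcongr
      linarith [add_mul (K / ν ^ 3) (1 / ν) (dsq (u r))]
    refine hle.trans ?_
    rw [intervalIntegral.integral_const_mul]
    have h8 : (K / ν ^ 3 + 1 / ν) * ∫ r in (0 : ℝ)..T, dsq (u r) ≤ (K / ν ^ 3 + 1 / ν) * K :=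
      mul_le_mul_of_nonneg_left (hbd T hT).2 (by positivity)
    refine h8.trans (le_of_eq ?_)
    rw [hL]
    ring
  · have hw : Mem 2 (v₀ - u 0) := by
      rw [hu0]
      exact (hMMB.2.2.2.2.1 2 s _ hs (hMMB.2.2.2.2.2 s v₀ u₀ hv₀ hmem).1).1
    obtain ⟨-, -, -, -, -, -, -, -, h1⟩ := hGRF.2.1 (v₀ - u 0) hw
    have h2 : hm (v₀ - u 0) + mu (v₀ - u 0) < (c * ν) ^ 2 / (2 * Real.exp (C * L)) := by
      rw [hu0] at h1 ⊢
      have h3 : (c * ν) ^ 2 / (2 * Real.exp (C * L)) =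
          2 * ((c * ν) ^ 2 / (4 * Real.exp (C * L))) := by
        field_simp
        ring
      rw [h3]
      linarith
    have he := Real.exp_pos (C * L)
    calc (hm (v₀ - u 0) + mu (v₀ - u 0)) * Real.exp (C * L)
        < (c * ν) ^ 2 / (2 * Real.exp (C * L)) * Real.exp (C * L) := by gcongr
      _ = (c * ν) ^ 2 / 2 := by field_simp
      _ < (c * ν) ^ 2 := by
        have : 0 < (c * ν) ^ 2 := by positivity
        linarith

end HB
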