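import Pool.Agent.H61.HB.Stmts

set_option autoImplicit false

namespace HB

theorem glb_thm (hEXT : EXTStmt) (hHSB : HSBStmt) (hDIS : DISStmt) (hUNQ : UNQStmt)
    (hMMB : MMBStmt) : GLBStmt := by
  intro ν s M u₀ hν hs hM hmem hreal hbd
  have hX : 0 ≤ nsq s u₀ := hMMB.2.2.2.1 s u₀
  -- the bound as a function of `T`
  have hB : ∀ T : ℝ, ∃ R : ℝ, 0 ≤ T → ∀ T' ∈ Set.Icc 0 T, ∀ u : ℝ → V, Sol ν s T' u →
      nsq s (u 0) ≤ nsq s u₀ → ∫ r in (0 : ℝ)..T', dsq (u r) ≤ M → nsq s (u T') ≤ R := by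
    intro T
    by_cases hT : 0 ≤ T
    · obtain ⟨R, -, hR⟩ := hHSB ν s T M (nsq s u₀) hν hs hT hM hX
      exact ⟨R, fun _ => hR⟩
    · exact ⟨0, fun h => absurd h hT⟩
  choose B hB using hB
  obtain ⟨v, hv0, hv⟩ := hEXT ν s u₀ B hν hs hmem (by
    intro T T' hT' hTT' u hsol hu0 hr ht
    refine hB T (hT'.trans hTT') T' ⟨hT', hTT'⟩ u hsol (by rw [hu0]) ?_
    exact hbd T' u hT' hsol hu0 (hr hreal) ht)
  have hst : ∀ T : ℝ, 0 ≤ T → Strong ν s T v := by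
    intro T hT
    refine ⟨(hv T hT).1, ?_, hDIS ν s T v hν hs hT (hv T hT).1⟩
    intro t ht
    exact (hv t ht.1).2.1 hreal
  refine ⟨v, hv0, fun T hT => ⟨hst T hT, (hv T hT).2.2, ?_⟩⟩
  intro w hw hw0 t ht
  exact hUNQ ν s T w v hν hs hT hw.sol (hst T hT).sol (by rw [hw0, hv0]) t ht

theorem sml_thm (hGLB : GLBStmt) (hFLU : FLUStmt) : SMLStmt := by
  obtain ⟨c₀, hc₀, h⟩ := hFLU
  refine ⟨c₀, hc₀, ?_⟩
  intro ν s v₀ hν hs hmem hreal hsm
  have hfl0 : 0 ≤ flu v₀ := by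
    unfold flu flS
    exact Finset.sum_nonneg fun j _ => tsum_nonneg fun k => by positivity
  obtain ⟨v, hv0, hv⟩ := hGLB ν s (flu v₀ / ν) v₀ hν hs (by positivity) hmem hreal (by
    intro T u hT hsol hu0 hr _
    have := (h ν s T u hν hs hT hsol hr (by rw [hu0]; exact hsm) T ⟨hT, le_refl T⟩).2
    rwa [hu0] at this)
  refine ⟨v, hv0, fun T hT => ⟨(hv T hT).1, (hv T hT).2.2⟩, ?_⟩
  have hb : ∀ t : ℝ, 0 ≤ t → flu (v t) ≤ flu v₀ * Real.exp (-ν * t) := by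
    intro t ht
    have := (h ν s t v hν hs ht (hv t ht).1.sol (hv t ht).1.real (by rw [hv0]; exact hsm) t
      ⟨ht, le_refl t⟩).1
    rwa [hv0] at this
  have hlim : Filter.Tendsto (fun t : ℝ => flu v₀ * Real.exp (-ν * t)) Filter.atTop (nhds 0) := by
    have h1 : Filter.Tendsto (fun t : ℝ => -ν * t) Filter.atTop Filter.atBot :=
      Filter.tendsto_id.const_mul_atTop_of_neg (by linarith)
    have h2 := Real.tendsto_exp_atBot.comp h1
    simpa using h2.const_mul (flu v₀)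
  refine squeeze_zero' (Filter.Eventually.of_forall fun t => ?_) ?_ hlim
  · unfold flu flS
    exact Finset.sum_nonneg fun j _ => tsum_nonneg fun k => by positivity
  · filter_upwards [Filter.eventually_ge_atTop (0 : ℝ)] with t ht
    exact hb t ht

end HB
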