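import Pool.Agent.H1.HB.DIF
import Pool.Agent.H1.HB.SCA
import Pool.Agent.H1.HB.STW
import Pool.Agent.H1.HB.TRS
import Pool.Agent.H1.HB.TRU
import Pool.Agent.H11.HB.DUB
import Pool.Agent.H12.HB.ADC
import Pool.Agent.H16.HB.LIN
import Pool.Agent.H17.HB.BIL
import Pool.Agent.H2.HB.VOC
import Pool.Agent.H22.HB.HMC
import Pool.Agent.H23.HB.GRF
import Pool.Agent.H26.HB.CONT
import Pool.Agent.H3.HB.ISO
import Pool.Agent.H31.HB.REA
import Pool.Agent.H31.HB.TRA
import Pool.Agent.H34.HB.NEI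
import Pool.Agent.H40.HB.WEN
import Pool.Agent.H44.HB.YNG
import Pool.Agent.H45.HB.DIS
import Pool.Agent.H45.HB.SUM
import Pool.Agent.H46.HB.ENE
import Pool.Agent.H47.HB.PTH
import Pool.Agent.H47.HB.TRB
import Pool.Agent.H48.HB.MLD
import Pool.Agent.H52.HB.LOC
import Pool.Agent.H53.HB.MNW
import Pool.Agent.H54.HB.SGC
import Pool.Agent.H55.HB.SCB
import Pool.Agent.H55.HB.TRC
import Pool.Agent.H55.HB.TWB
import Pool.Agent.H61.HB.FNA
import Pool.Agent.H61.HB.FNB
import Pool.Agent.H61.HB.FNC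
import Pool.Agent.H61.HB.GLB
import Pool.Agent.H63.HB.CAN
import Pool.Agent.H63.HB.EXT
import Pool.Agent.H65.HB.LON
import Pool.Agent.H74.HB.FLU
import Pool.Agent.H74.HB.HMW
import Pool.Agent.H74.HB.RES
import Pool.Agent.H78.HB.CRB
import Pool.Agent.H80.HB.GRC
import Pool.Agent.H80.HB.TWA
import Pool.Agent.H85.HB.GLU
import Pool.Agent.H85.HB.UNQ
import Pool.Agent.H86.HB.DIV
import Pool.Agent.H88.HB.MMB
import Pool.Agent.H89.HB.LGR
import Pool.Agent.H89.HB.MEA
import Pool.Agent.H89.HB.SYM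
import Pool.Agent.H91.HB.HSB
import Pool.Agent.H91.HB.TWC
import Pool.Agent.H93.HB.GRW
import Pool.Agent.H93.HB.TRM

set_option autoImplicit false

/-! Project HB: all rows put together. -/

namespace HB.All

open HB

theorem MMB : MMBStmt := mmb_thm
theorem SUM : SUMStmt := sum_thm
theorem YNG : YNGStmt := yng_thm
theorem LON : LONStmt := lon_thm SUM
theorem BIL : BILStmt := bil_thm YNG LON MMB
theorem LIN : LINStmt := lin_thm BIL MMB
theorem REA : REAStmt := rea_thm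
theorem TRA : TRAStmt := tra_thm BIL
theorem CONT : CONStmt := con_thm MMB
theorem ADC : ADCStmt := adc_thm BIL LIN MMB
theorem VOC : VOCStmt := voc_thm
theorem SGC : SGCStmt := sgc_thm MMB
theorem DUB : DUBStmt := dub_thm CONT
theorem DUC : DUCStmt := duc_thm CONT
theorem MLD : MLDStmt := mld_thm VOC ADC CONT
theorem DIS : DISStmt := dis_thm ADC CONT
theorem ISO : ISOStmt := iso_thm
theorem PTH : PTHStmt := pth_thm ISO
theorem LOC : LOCStmt := loc_thm PTH ISO SGC DUB DUC BIL LIN ADC REA TRA MLD MMB CONT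
theorem GRW : GRWStmt := grw_thm
theorem DIF : DIFStmt := dif_thm MLD DUB BIL LIN ADC CONT GRW MMB
theorem UNQ : UNQStmt := unq_thm DIF CONT MMB
theorem RES : RESStmt := res_thm
theorem GLU : GLUStmt := glu_thm RES
theorem EXT : EXTStmt := EXT_thm LOC GLU UNQ RES
theorem DIV : DIVStmt := div_thm
theorem MEA : MEAStmt := mea_thm BIL DIV MMB
theorem HSB : HSBStmt := hsb_thm MLD DUB BIL GRW DIV MEA MMB CONT ADC SGC
theorem ENE : ENEStmt := ene_thm CONT ADC LIN MMB
theorem TRS : TRSStmt := trs_thm YNG SUM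
theorem CAN : CANStmt := CAN_thm YNG LON
theorem SYM : SYMStmt := sym_thm
theorem FLU : FLUStmt := flu_thm ENE CAN TRS DIV MMB
theorem TRB : TRBStmt := trb_thm CAN SYM LIN
theorem TRC : TRCStmt := TRC_thm CAN SYM TRS DIV LIN
theorem GLB : GLBStmt := glb_thm EXT HSB DIS UNQ MMB
theorem GRF : GRFStmt := grf_thm
theorem GRC : GRCStmt := grc_thm MMB CONT
theorem WEN : WENStmt := wen_thm CONT ADC LIN MMB GRF
theorem TWA : TWAStmt := twa_thm SUM
theorem TWB : TWBStmt := twb_thm TWA GRF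
theorem TWC : TWCStmt := twc_thm TWA GRF
theorem HMW : HMWStmt := hmw_thm TWB TWC LIN GRF MMB BIL
theorem MNW : MNWStmt := mnw_thm GRF LIN MMB
theorem NEI : NEIStmt := NEI_thm WEN HMW MNW GRF MMB BIL
theorem STW : STWStmt := stw_thm NEI GRC
theorem LGR : LGRStmt := lgr_thm ENE CAN TRS GRF GRC DIV MMB
theorem CRB : CRBStmt := crb_thm STW LGR GLB GRF GRC MMB
theorem TRU : TRUStmt := tru_thm ENE TRB TRC DIV LIN
theorem FNA : FNAStmt := fna_thm TRU GLB CRB GRF GRC MMB
theorem FNB : FNBStmt := fnb_thm CRB FLU RES GRF GRC MMB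
theorem HMC : HMCStmt := hmc_thm CRB
theorem SCA : SCAStmt := sca_thm
theorem SCB : SCBStmt := scb_thm SCA MMB
theorem FNC : FNCStmt := fnc_thm HMC SCA SCB DIS UNQ

end HB.All
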