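import Pool.Agent.H61.HB.Stmts4

/-!
Project HB, the density theorem for all data in `H^(-r)`.
-/

set_option autoImplicit false

namespace HB

theorem sq_nonneg2 (k : Z2) : 0 ≤ sq k := by unfold sq; positivity

/-- truncation -/
theorem trp2 (r ε : ℝ) (u₀ : V) (hε : 0 < ε) (h : Mem (-r) u₀) (hR : Rl u₀) :
    ∃ (M : ℝ) (p : V), 0 ≤ M ∧ Fs M p ∧ Rl p ∧ nsq (-r) (p - u₀) < ε := by
  classical
  let f : Fin 2 → Z2 → ℝ := fun j k => (1 + sq k) ^ (-r) * ‖u₀ j k‖ ^ 2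
  have hf0 : ∀ j k, 0 ≤ f j k := fun j k => by
    have : (0 : ℝ) ≤ (1 + sq k) ^ (-r) :=
      Real.rpow_nonneg (by have := sq_nonneg2 k; linarith) _
    positivity
  have hs : ∀ j, Summable (f j) := h
  -- finite sets
  have hex : ∀ j, ∃ S : Finset Z2, ∑' k, f j k - ∑ k ∈ S, f j k < ε / 2 := by
    intro j
    have h1 : Filter.Tendsto (fun S : Finset Z2 => ∑ k ∈ S, f j k) Filter.atTop
        (nhds (∑' k, f j k)) := (hs j).hasSum
    have h2 := h1.eventually (lt_mem_nhds (show ∑' k, f j k - ε / 2 < ∑' k, f j k by linarith))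
    obtain ⟨S, hS⟩ := h2.exists
    exact ⟨S, by linarith⟩
  choose S hS using hex
  -- a bound for all frequencies in the finite sets
  obtain ⟨M, hM0, hM⟩ : ∃ M : ℝ, 0 ≤ M ∧ ∀ j, ∀ k ∈ S j, sq k ≤ M ^ 2 := by
    let B : ℝ := ∑ j : Fin 2, ∑ k ∈ S j, sq k
    have hB0 : 0 ≤ B := Finset.sum_nonneg fun j _ => Finset.sum_nonneg fun k _ => sq_nonneg2 k
    refine ⟨1 + B, by linarith, fun j k hk => ?_⟩
    have h1 : sq k ≤ ∑ k ∈ S j, sq k :=
      Finset.single_le_sum (f := fun k => sq k) (fun i _ => sq_nonneg2 i) hk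
    have h2 : ∑ k ∈ S j, sq k ≤ B :=
      Finset.single_le_sum (f := fun j => ∑ k ∈ S j, sq k)
        (fun j _ => Finset.sum_nonneg fun k _ => sq_nonneg2 k) (Finset.mem_univ j)
    nlinarith
  let p : V := fun j k => if sq k ≤ M ^ 2 then u₀ j k else 0
  refine ⟨M, p, hM0, ?_, ?_, ?_⟩
  · intro j k hk
    simp only [p, if_neg (not_le.2 hk)]
  · intro j k
    have e : sq (-k) = sq k := by simp [sq]
    simp only [p, e]
    split
    · exact hR j k
    · simp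
  · have hkey : ∀ j, ∑' k, (1 + sq k) ^ (-r) * ‖(p - u₀) j k‖ ^ 2 < ε / 2 := by
      intro j
      refine lt_of_le_of_lt ?_ (hS j)
      have hle : ∀ k, (1 + sq k) ^ (-r) * ‖(p - u₀) j k‖ ^ 2 ≤
          f j k - (if k ∈ S j then f j k else 0) := by
        intro k
        by_cases hk : k ∈ S j
        · have h1 : (p - u₀) j k = 0 := by
            change p j k - u₀ j k = 0
            simp only [p, if_pos (hM j k hk), sub_self]
          rw [h1, if_pos hk]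
          simp
        · rw [if_neg hk, sub_zero]
          have h1 : ‖(p - u₀) j k‖ ≤ ‖u₀ j k‖ := by
            change ‖p j k - u₀ j k‖ ≤ _
            simp only [p]
            split <;> simp
          have h2 : (0 : ℝ) ≤ (1 + sq k) ^ (-r) :=
            Real.rpow_nonneg (by have := sq_nonneg2 k; linarith) _
          exact mul_le_mul_of_nonneg_left (pow_le_pow_left₀ (norm_nonneg _) h1 2) h2
      have hs2 : Summable fun k => if k ∈ S j then f j k else 0 :=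
        summable_of_ne_finset_zero (s := S j) fun k hk => by simp [hk]
      have hs3 : Summable fun k => f j k - (if k ∈ S j then f j k else 0) := (hs j).sub hs2
      have hs4 : Summable fun k => (1 + sq k) ^ (-r) * ‖(p - u₀) j k‖ ^ 2 := by
        refine Summable.of_nonneg_of_le (fun k => ?_) hle hs3
        have h2 : (0 : ℝ) ≤ (1 + sq k) ^ (-r) :=
          Real.rpow_nonneg (by have := sq_nonneg2 k; linarith) _
        positivity
      refine (hs4.tsum_le_tsum hle hs3).trans (le_of_eq ?_)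
      rw [(hs j).tsum_sub hs2]
      congr 1
      rw [tsum_eq_sum (s := S j) fun k hk => by simp [hk]]
      exact Finset.sum_congr rfl fun k hk => by simp [hk]
    unfold nsq nqS
    rw [Fin.sum_univ_two]
    have h0 := hkey 0
    have h1 := hkey 1
    linarith

/-- density for all real `u₀ ∈ H^(-r)`, `r > 3/2`; the solution is in every `H^s` -/
def FND2Stmt : Prop :=
  ∀ (ν r ε : ℝ) (u₀ : V), 0 < ν → 3 / 2 < r → 0 < ε → Mem (-r) u₀ → Rl u₀ →
    ∃ v₀ : V, {k : Z2 | ∃ j, v₀ j k ≠ 0}.Finite ∧ Rl v₀ ∧ nsq (-r) (v₀ - u₀) < ε ∧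
      ∀ s : ℝ, 2 ≤ s → ∃ v : ℝ → V, v 0 = v₀ ∧ (∀ T : ℝ, 0 ≤ T → Strong ν s T v ∧
        ∀ w : ℝ → V, Strong ν s T w → w 0 = v₀ → ∀ t ∈ Set.Icc 0 T, w t = v t) ∧
        Filter.Tendsto (fun t => flu (v t)) Filter.atTop (nhds 0) ∧
        ∀ t : ℝ, ε ≤ t → nsq (-1) (v t) < ε

theorem fnd2_thm (hGLD : GLDStmt) (hDCA : DCAStmt) (hFSA : FSAStmt)
    (hFSB : FSBStmt) (hMMB : MMBStmt) : FND2Stmt := by
  intro ν r ε u₀ hν hr hε hu hR
  obtain ⟨M, p, hM, hp, hpR, hpu⟩ := trp2 r (ε / 8) u₀ (by positivity) hu hR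
  obtain ⟨K, n₁, hK, h1⟩ := hGLD ν M p hν hM hp hpR
  obtain ⟨n₂, h2⟩ := hDCA ν M r (ε / 8) p hν hM hr (by positivity) hp
  obtain ⟨n₃, hn₃⟩ := exists_nat_gt (8 * K / ε)
  obtain ⟨n, hn1, hn2, hn3, hn4⟩ : ∃ n : ℕ, n₁ ≤ n ∧ n₂ ≤ n ∧ n₃ ≤ n ∧ 1 ≤ n :=
    ⟨max (max n₁ n₂) (max n₃ 1), by simp, by simp, by simp, by simp⟩
  obtain ⟨h21, h22⟩ := h2 n hn2 hn4
  obtain ⟨hFfin, hFmem, hFadd, hFadv, hFmono, hFpro, hFsh⟩ := hFSB
  obtain ⟨-, -, -, -, hmono, hadd⟩ := hMMB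
  have hfs : Fs ((n : ℝ) ^ 2 + M) (apx ν p n 1) := (hFSA ν M p n 1 hM hp).1
  have hnpos : (0 : ℝ) < n := by exact_mod_cast hn4
  refine ⟨apx ν p n 1, ?_, (hFSA ν M p n 1 hM hp).2.2.2 hpR, ?_, ?_⟩
  · refine (hFfin ((n : ℝ) ^ 2 + M)).subset ?_
    rintro k ⟨j, hj⟩
    by_contra hk
    exact hj (hfs j k (not_le.1 hk))
  · have e : apx ν p n 1 - u₀ = (apx ν p n 1 - p) + (p - u₀) := by abel
    have m1 : Mem (-r) (apx ν p n 1) := hFmem _ _ _ hfs
    have m2 : Mem (-r) p := hFmem _ _ _ hp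
    have m4 := (hadd (-r) _ _ m1 m2).1
    have m5 := (hadd (-r) _ _ m2 hu).1
    have h := (hadd (-r) _ _ m4 m5).2.2.2
    rw [e]
    linarith
  · intro s hs
    obtain ⟨v, hv0, hv1, hv2, hv3⟩ := h1 n hn1 hn4 s hs
    refine ⟨v, hv0, hv1, hv2, ?_⟩
    intro t ht
    have ht0 : 0 ≤ t := by linarith
    have e : v t = (v t - apx ν p n (tht ν n t)) + apx ν p n (tht ν n t) := by abel
    have m1 : Mem (-1) (apx ν p n (tht ν n t)) := hFmem _ _ _ (hFSA ν M p n _ hM hp).1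
    have m2 : Mem (-1) (v t) := (hmono (-1) s (v t) (by linarith)
      ((hv1 t ht0).1.sol.cts.1 t ⟨ht0, le_rfl⟩)).1
    have m3 := (hadd (-1) _ _ m2 m1).1
    have h := (hadd (-1) _ _ m3 m1).2.2.2
    have h3 := hv3 t ht0
    have h4 := h22 t (by linarith)
    have h5 : K / n < ε / 8 := by
      have h6 : 8 * K / ε < n := lt_of_lt_of_le hn₃ (by exact_mod_cast hn3)
      rw [div_lt_iff₀ hε] at h6
      rw [div_lt_iff₀ hnpos]
      linarith
    rw [e]
    linarith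

end HB
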