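import Pool.Agent.H61.HB.Stmts4

/-!
Project HB, row MUB.
-/

set_option autoImplicit false

namespace HB

theorem mub_thm (hFSB : FSBStmt) : MUBStmt := by
  intro M g h hM hg hh
  obtain ⟨hfin, hmem, -, hadv, -, -, -⟩ := hFSB
  -- finite sets
  let F : Finset Z2 := (hfin M).toFinset
  have hF : ∀ k, k ∉ F → ∀ j, g j k = 0 := by
    intro k hk j
    have : ¬ sq k ≤ M ^ 2 := fun h' => hk ((hfin M).mem_toFinset.2 h')
    exact hg j k (not_le.1 this)
  -- the two profiles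
  let m : Fin 2 → V := fun i j k => ∑ l ∈ F, g i l * Complex.I * h j (k - l)
  have hmul : ∀ (d : Z2) (j : Fin 2) (k : Z2), mul d g h j k =
      (co 0 d : ℂ) * m 0 j k + (co 1 d : ℂ) * m 1 j k := by
    intro d j k
    unfold mul
    rw [tsum_eq_sum (s := F)]
    · simp only [m]
      rw [Finset.mul_sum, Finset.mul_sum, ← Finset.sum_add_distrib]
      refine Finset.sum_congr rfl fun l _ => ?_
      rw [Fin.sum_univ_two]
      ring
    · intro l hl
      rw [Fin.sum_univ_two, hF l hl 0, hF l hl 1]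
      ring
  have hms : ∀ i, Mem 0 (m i) := by
    intro i j
    -- finitely supported
    have h1 : ∀ k, m i j k ≠ 0 → k ∈ (Finset.image₂ (fun a b : Z2 => a + b) F
        (hfin M).toFinset) := by
      intro k hk
      have h2 : ∃ l ∈ F, g i l * Complex.I * h j (k - l) ≠ 0 :=
        Finset.exists_ne_zero_of_sum_ne_zero hk
      obtain ⟨l, hl, hne⟩ := h2
      have h3 : h j (k - l) ≠ 0 := right_ne_zero_of_mul hne
      have h4 : k - l ∈ (hfin M).toFinset := by
        rw [(hfin M).mem_toFinset]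
        by_contra hcon
        exact h3 (hh j _ (not_le.1 hcon))
      refine Finset.mem_image₂.2 ⟨l, hl, k - l, h4, ?_⟩
      abel
    refine summable_of_ne_finset_zero (s := Finset.image₂ (fun a b : Z2 => a + b) F
        (hfin M).toFinset) ?_
    intro k hk
    have h5 : m i j k = 0 := by
      by_contra hcon
      exact hk (h1 k hcon)
    rw [h5]
    simp
  refine ⟨2 * (nsq 0 (m 0) + nsq 0 (m 1)), ?_, ?_⟩
  · have h0 : ∀ i, 0 ≤ nsq 0 (m i) := fun i => Finset.sum_nonneg fun j _ =>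
      tsum_nonneg fun k => by positivity
    have := h0 0
    have := h0 1
    positivity
  · intro d
    have hd : sq d = co 0 d ^ 2 + co 1 d ^ 2 := by simp [sq, co]
    have hpt : ∀ j k, (1 + sq k) ^ (0 : ℝ) * ‖mul d g h j k‖ ^ 2 ≤
        2 * sq d * ((1 + sq k) ^ (0 : ℝ) * ‖m 0 j k‖ ^ 2 +
          (1 + sq k) ^ (0 : ℝ) * ‖m 1 j k‖ ^ 2) := by
      intro j k
      rw [hmul, Real.rpow_zero]
      have h1 : ‖(co 0 d : ℂ) * m 0 j k + (co 1 d : ℂ) * m 1 j k‖ ≤
          |co 0 d| * ‖m 0 j k‖ + |co 1 d| * ‖m 1 j k‖ := by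
        refine (norm_add_le _ _).trans ?_
        rw [norm_mul, norm_mul, Complex.norm_real, Complex.norm_real, Real.norm_eq_abs,
          Real.norm_eq_abs]
      have h2 : ‖(co 0 d : ℂ) * m 0 j k + (co 1 d : ℂ) * m 1 j k‖ ^ 2 ≤
          (|co 0 d| * ‖m 0 j k‖ + |co 1 d| * ‖m 1 j k‖) ^ 2 :=
        pow_le_pow_left₀ (norm_nonneg _) h1 2
      have e0 : |co 0 d| ^ 2 = co 0 d ^ 2 := sq_abs _
      have e1 : |co 1 d| ^ 2 = co 1 d ^ 2 := sq_abs _
      rw [hd]
      nlinarith [sq_nonneg (|co 0 d| * ‖m 0 j k‖ - |co 1 d| * ‖m 1 j k‖),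
        mul_nonneg (sq_nonneg (co 0 d)) (sq_nonneg ‖m 1 j k‖),
        mul_nonneg (sq_nonneg (co 1 d)) (sq_nonneg ‖m 0 j k‖)]
    have hM2 : ∀ j, Summable fun k => (1 + sq k) ^ (0 : ℝ) * ‖mul d g h j k‖ ^ 2 := by
      intro j
      have h1 := (hmem (M + M) 0 (mul d g h)
        ((hadv M M g h hM hM hg hh).2 d)) j
      exact h1
    have hkey : ∀ j, nqS 0 (mul d g h j) ≤ 2 * sq d * (nqS 0 (m 0 j) + nqS 0 (m 1 j)) := by
      intro j
      unfold nqS
      rw [← (hms 0 j).tsum_add (hms 1 j), ← tsum_mul_left]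
      refine (hM2 j).tsum_le_tsum (hpt j) ?_
      exact ((hms 0 j).add (hms 1 j)).mul_left _
    unfold nsq
    calc ∑ j, nqS 0 (mul d g h j) ≤ ∑ j, 2 * sq d * (nqS 0 (m 0 j) + nqS 0 (m 1 j)) :=
          Finset.sum_le_sum fun j _ => hkey j
      _ = 2 * (∑ j, nqS 0 (m 0 j) + ∑ j, nqS 0 (m 1 j)) * sq d := by
          rw [← Finset.mul_sum, Finset.sum_add_distrib]
          ring

end HB
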