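import Pool.Agent.H61.HB.Stmts4
import Pool.Agent.H34.HB.NEI
import Pool.Agent.H46.HB.ENE

/-!
Project HB, row NED.
-/

set_option autoImplicit false

namespace HB

theorem ned_xf (x f p m : ℝ) (hm : 1 ≤ m) (hfp : f ^ 2 ≤ x * p) :
    x * f ≤ m * x ^ 2 + p ^ 2 / m ^ 3 := by
  have hm0 : 0 < m := by linarith
  have h1 : 2 * (x * f) ≤ m * x ^ 2 + f ^ 2 / m := by
    have h : 0 ≤ (m * x - f) ^ 2 / m := by positivity
    have e : (m * x - f) ^ 2 / m = m * x ^ 2 + f ^ 2 / m - 2 * (x * f) := by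
      field_simp
      ring
    linarith
  have h2 : 2 * (x * p / m) ≤ m * x ^ 2 + p ^ 2 / m ^ 3 := by
    have h : 0 ≤ (m ^ 2 * x - p) ^ 2 / m ^ 3 := by positivity
    have e : (m ^ 2 * x - p) ^ 2 / m ^ 3 = m * x ^ 2 + p ^ 2 / m ^ 3 - 2 * (x * p / m) := by
      field_simp
      ring
    linarith
  have h3 : f ^ 2 / m ≤ x * p / m := by gcongr
  have h4 : 0 ≤ m * x ^ 2 := by positivity
  have h5 : 0 ≤ p ^ 2 / m ^ 3 := by positivity
  linarith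

/-- the final inequality -/
theorem ned_real (A B C₁ C₂ K₁ K₂ ν n θ w N μ F P H₁ M₁ H₂ M₂ H₃ M₃ Q : ℝ)
    (hA : 0 < A) (hB : 0 < B) (hC₁ : 0 < C₁) (hC₂ : 0 < C₂) (hK₁ : 0 ≤ K₁) (hK₂ : 0 ≤ K₂)
    (hν : 0 < ν) (hn : 1 ≤ n) (hn2 : 8 * (C₁ + C₂) * K₂ ≤ ν * n) (hθ : 0 ≤ θ) (hθ1 : θ ≤ 1)
    (hw0 : 0 ≤ w) (hw : w ≤ K₂ * n ^ 5 * θ) (hN : 0 ≤ N) (hμ : 0 ≤ μ) (hNF : N ≤ F) (hFP : F ≤ P)
    (hFN : F ^ 2 ≤ N * P)
    (h1 : |H₁| ≤ A * (√N * P)) (m1 : |M₁| ≤ B * √μ * (√F * √P))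
    (h2 : |H₂| ≤ C₁ * w * (√N * √(F + μ))) (m2 : |M₂| ≤ C₂ * w * (√μ * √(F + μ)))
    (h3 : |H₃| + |M₃| ≤ 4 * √(N + μ) * √Q) (hQ : Q ≤ (K₁ * n ^ 7 * θ) ^ 2)
    (hs : N + μ ≤ (ν / (4 * (A + B))) ^ 2) :
    -2 * ν * P - 2 * (H₁ + H₂ + H₃) - 2 * (M₁ + M₂ + M₃) ≤
      -ν * P + (8 * (C₁ + C₂) * K₂ + 8 * K₁ + 1) * n ^ 7 * θ * (N + μ + 1) := by
  have hF : 0 ≤ F := hN.trans hNF
  have hP : 0 ≤ P := hF.trans hFP
  set x := √(N + μ) with hx
  have hx0 : 0 ≤ x := Real.sqrt_nonneg _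
  have hx2 : x ^ 2 = N + μ := Real.sq_sqrt (by linarith)
  have ha : √N ≤ x := Real.sqrt_le_sqrt (by linarith)
  have hb : √μ ≤ x := Real.sqrt_le_sqrt (by linarith)
  have hp0 : 0 ≤ √P := Real.sqrt_nonneg _
  have hp2 : √P ^ 2 = P := Real.sq_sqrt hP
  have hf0 : 0 ≤ √F := Real.sqrt_nonneg _
  have hf2 : √F ^ 2 = F := Real.sq_sqrt hF
  have hfp : √F ≤ √P := Real.sqrt_le_sqrt hFP
  have hxc : x ≤ ν / (4 * (A + B)) := by
    rw [hx, ← Real.sqrt_sq (show 0 ≤ ν / (4 * (A + B)) by positivity)]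
    exact Real.sqrt_le_sqrt hs
  have hABx : 4 * (A + B) * x ≤ ν := by
    have := mul_le_mul_of_nonneg_left hxc (show 0 ≤ 4 * (A + B) by positivity)
    rwa [mul_div_cancel₀ _ (by positivity : 4 * (A + B) ≠ 0)] at this
  -- first group
  have g1 : |H₁| ≤ A * x * P := by
    refine h1.trans ?_
    have := mul_le_mul_of_nonneg_right ha hP
    nlinarith
  have g2 : |M₁| ≤ B * x * P := by
    refine m1.trans ?_
    have e1 : √F * √P ≤ P := by nlinarith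
    have e2 : B * √μ * (√F * √P) ≤ B * x * P := by gcongr
    exact e2
  have g3 : |H₁| + |M₁| ≤ ν * P / 4 := by
    have : 4 * (A + B) * x * P ≤ ν * P := mul_le_mul_of_nonneg_right hABx hP
    linarith
  -- second group
  have hFa : F ≤ x * √P := by
    have e1 : F ≤ √N * √P := by
      rw [← Real.sqrt_mul hN]
      exact Real.le_sqrt_of_sq_le hFN
    exact e1.trans (mul_le_mul_of_nonneg_right ha hp0)
  have hm : 1 ≤ n ^ 2 := one_le_pow₀ hn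
  have hn0 : 0 < n := by linarith
  have k1 : x * √F ≤ n ^ 2 * x ^ 2 + √P ^ 2 / (n ^ 2) ^ 3 :=
    ned_xf x (√F) (√P) (n ^ 2) hm (by rw [hf2]; exact hFa)
  have k2 : √(F + μ) ≤ √F + x := by
    have e1 : √(F + μ) ≤ √F + √μ := by
      rw [Real.sqrt_le_left (by positivity)]
      have e2 : √μ ^ 2 = μ := Real.sq_sqrt hμ
      nlinarith [mul_nonneg hf0 (Real.sqrt_nonneg μ)]
    linarith
  have k3 : x * √(F + μ) ≤ 2 * n ^ 2 * x ^ 2 + P / n ^ 6 := by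
    have e1 : x * √(F + μ) ≤ x * (√F + x) := mul_le_mul_of_nonneg_left k2 hx0
    have e2 : (n ^ 2) ^ 3 = n ^ 6 := by ring
    rw [hp2, e2] at k1
    nlinarith [mul_nonneg (sub_nonneg.2 hm) (sq_nonneg x)]
  have hS : 0 ≤ √(F + μ) := Real.sqrt_nonneg _
  have g4 : |H₂| + |M₂| ≤ (C₁ + C₂) * w * (2 * n ^ 2 * x ^ 2 + P / n ^ 6) := by
    have e1 : |H₂| ≤ C₁ * w * (x * √(F + μ)) := h2.trans (by gcongr)
    have e2 : |M₂| ≤ C₂ * w * (x * √(F + μ)) := m2.trans (by gcongr)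
    have e3 : (C₁ + C₂) * w * (x * √(F + μ)) ≤
        (C₁ + C₂) * w * (2 * n ^ 2 * x ^ 2 + P / n ^ 6) :=
      mul_le_mul_of_nonneg_left k3 (by positivity)
    linarith
  have g5 : (C₁ + C₂) * w * (2 * n ^ 2 * x ^ 2 + P / n ^ 6) ≤
      2 * (C₁ + C₂) * K₂ * n ^ 7 * θ * x ^ 2 + ν * P / 8 := by
    have e1 : (C₁ + C₂) * w * (2 * n ^ 2 * x ^ 2 + P / n ^ 6) ≤
        (C₁ + C₂) * (K₂ * n ^ 5 * θ) * (2 * n ^ 2 * x ^ 2 + P / n ^ 6) := by gcongr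
    have e2 : (C₁ + C₂) * (K₂ * n ^ 5 * θ) * (2 * n ^ 2 * x ^ 2 + P / n ^ 6) =
        2 * (C₁ + C₂) * K₂ * n ^ 7 * θ * x ^ 2 + (C₁ + C₂) * K₂ * (n ^ 5 / n ^ 6) * θ * P := by
      ring
    have e3 : n ^ 5 / n ^ 6 = 1 / n := by
      field_simp
    have e4 : (C₁ + C₂) * K₂ * (1 / n) ≤ ν / 8 := by
      rw [mul_one_div, div_le_div_iff₀ hn0 (by norm_num)]
      linarith
    have e5 : (C₁ + C₂) * K₂ * (1 / n) * θ * P ≤ ν / 8 * 1 * P := by gcongr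
    rw [e2, e3] at e1
    linarith
  -- third group
  have g6 : |H₃| + |M₃| ≤ 4 * (K₁ * n ^ 7 * θ) * (x ^ 2 + 1) := by
    have e1 : √Q ≤ K₁ * n ^ 7 * θ := by
      rw [← Real.sqrt_sq (show 0 ≤ K₁ * n ^ 7 * θ by positivity)]
      exact Real.sqrt_le_sqrt hQ
    have e2 : 4 * x * √Q ≤ 4 * x * (K₁ * n ^ 7 * θ) := by gcongr
    have e3 : x ≤ x ^ 2 + 1 := by nlinarith [sq_nonneg (x - 1)]
    have e4 : 4 * (K₁ * n ^ 7 * θ) * x ≤ 4 * (K₁ * n ^ 7 * θ) * (x ^ 2 + 1) := by gcongr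
    linarith
  have b1 := neg_abs_le H₁
  have b2 := neg_abs_le M₁
  have b3 := neg_abs_le H₂
  have b4 := neg_abs_le M₂
  have b5 := neg_abs_le H₃
  have b6 := neg_abs_le M₃
  rw [← hx2]
  have c1 : 0 ≤ n ^ 7 * θ * (x ^ 2 + 1) := by positivity
  have c2 : 0 ≤ (C₁ + C₂) * K₂ * n ^ 7 * θ := by positivity
  have c3 : 0 ≤ (C₁ + C₂) * K₂ * n ^ 7 * θ * x ^ 2 := by positivity
  have c4 : 0 ≤ K₁ * n ^ 7 * θ * (x ^ 2 + 1) := by positivity
  have e : (8 * (C₁ + C₂) * K₂ + 8 * K₁ + 1) * n ^ 7 * θ * (x ^ 2 + 1) =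
      8 * ((C₁ + C₂) * K₂ * n ^ 7 * θ * x ^ 2) + 8 * ((C₁ + C₂) * K₂ * n ^ 7 * θ) +
      8 * (K₁ * n ^ 7 * θ * (x ^ 2 + 1)) + n ^ 7 * θ * (x ^ 2 + 1) := by ring
  rw [e]
  have hνP : 0 ≤ ν * P := by positivity
  linarith

theorem ned_sum (f A : Z2 → ℂ) (h2 : Summable fun k => ‖f k‖ ^ 2)
    (h3 : Summable fun k => ‖A k‖ ^ 2) :
    Summable fun k => ((starRingEnd ℂ) (off f k) * A k).re / sq k := by
  refine Summable.of_norm_bounded (h2.add h3) fun k => ?_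
  by_cases h : k = 0
  · rw [h, nei_sq_zero, div_zero, norm_zero]
    positivity
  · have e1 := nei_sq_one h
    have e2 : off f k = f k := by simp [off, h]
    rw [e2, norm_div]
    have e3 : ‖((starRingEnd ℂ) (f k) * A k).re‖ ≤ ‖f k‖ * ‖A k‖ := by
      refine (Complex.abs_re_le_norm _).trans ?_
      rw [norm_mul, RCLike.norm_conj]
    have e4 : ‖sq k‖ = sq k := by rw [Real.norm_eq_abs, abs_of_nonneg (by linarith)]
    rw [e4]
    have e5 : ‖((starRingEnd ℂ) (f k) * A k).re‖ / sq k ≤ ‖((starRingEnd ℂ) (f k) * A k).re‖ :=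
      div_le_self (norm_nonneg _) e1
    have e6 := two_mul_le_add_sq ‖f k‖ ‖A k‖
    have e7 : 0 ≤ ‖f k‖ * ‖A k‖ := by positivity
    linarith

theorem ned_adv0 : adv (0 : V) (0 : V) = 0 := by
  funext j k
  simp [adv, dot, trm]

theorem ned_flu0 : flu (0 : V) = 0 := by
  simp [flu, flS, off]

theorem ned_grd0 : grd (0 : V) = 0 := by
  simp [grd, grS]

theorem ned_thm (hENW : ENWStmt) (hABL : ABLStmt) (hRSB : RSBStmt) (hRST : RSTStmt)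
    (hHMW : HMWStmt) (hMNW : MNWStmt) (hWTA : WTAStmt) (hWTM : WTMStmt) (hWNB : WNBStmt)
    (hGRF : GRFStmt) (hFSA : FSAStmt) (hFSB : FSBStmt) (hMMB : MMBStmt) (hBIL : BILStmt) :
    NEDStmt := by
  obtain ⟨A, hA, HM⟩ := hHMW
  obtain ⟨B, hB, MN⟩ := hMNW
  obtain ⟨C₁, hC₁, WA⟩ := hWTA
  obtain ⟨C₂, hC₂, WM⟩ := hWTM
  obtain ⟨-, -, mc, -, me, mf⟩ := hMMB
  obtain ⟨ga, gb, -⟩ := hGRF
  obtain ⟨-, hFmem, -, hFadv, -, -, -⟩ := hFSB
  intro ν M p hν hM hp hpR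
  obtain ⟨K₁, n₁, hK₁, hres⟩ := hRSB ν M p hM hp
  obtain ⟨K₂, hK₂, hwn⟩ := hWNB ν M p hM hp
  obtain ⟨n₂, hn₂⟩ := exists_nat_ge (8 * (C₁ + C₂) * K₂ / ν)
  refine ⟨8 * (C₁ + C₂) * K₂ + 8 * K₁ + 1, ν / (4 * (A + B)), max n₁ n₂, by positivity,
    by positivity, ?_⟩
  intro n hn hn1 s T v hs hT hv hRl t ht
  have hnR : (1 : ℝ) ≤ n := by exact_mod_cast hn1
  have hn2 : 8 * (C₁ + C₂) * K₂ ≤ ν * n := by
    have e1 : (n₂ : ℝ) ≤ n := by exact_mod_cast (le_max_right n₁ n₂).trans hn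
    have e2 := hn₂.trans e1
    rw [div_le_iff₀ hν] at e2
    linarith
  set θ := tht ν n t with hθ
  have hθ0 : 0 ≤ θ := (Real.exp_pos _).le
  have hθ1 : θ ≤ 1 := by
    rw [hθ]
    unfold tht
    rw [Real.exp_le_one_iff]
    have : 0 ≤ ν * (n : ℝ) ^ 8 * t := mul_nonneg (by positivity) ht.1
    linarith
  set Ap := apx ν p n θ with hAp
  set Fr := frc ν p n θ with hFr
  obtain ⟨fs1, fs2, -, fs3⟩ := hFSA ν M p n θ hM hp
  have hn0 : (0 : ℝ) ≤ (n : ℝ) ^ 2 + M := by positivity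
  have hMA : Mem 2 Ap := hFmem _ _ _ fs1
  have hMF : Mem 2 Fr := hFmem _ _ _ fs2
  have hMAA : Mem 2 (adv Ap Ap) := hFmem _ _ _ (hFadv _ _ _ _ hn0 hn0 fs1 fs1).1
  have hMR : Mem 2 (Fr + adv Ap Ap) := (mf 2 _ _ hMF hMAA).2.1
  have hMv : Mem 2 (v t) := (me 2 s (v t) hs (hv.cts.1 t ht)).1
  set φ : V := v t - Ap with hφ
  have hMφ : Mem 2 φ := (mf 2 _ _ hMv hMA).1
  have hRA : Rl Ap := fs3 hpR
  have hRφ : Rl φ := by
    intro j k
    show v t j (-k) - Ap j (-k) = (starRingEnd ℂ) (v t j k - Ap j k)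
    rw [hRl t ht, hRA, map_sub]
  -- square summability
  obtain ⟨_, _, hb⟩ := hBIL 2 le_rfl
  have hL : ∀ (a b : V), Mem 2 a → Mem 2 b → ∀ j, Summable fun k => ‖adv a b j k‖ ^ 2 := by
    intro a b ha hb' j
    have h1 := (hb a (b j) ha (hb' j)).2.1
    unfold MemS at h1
    refine h1.congr fun k => ?_
    rw [sub_self, Real.rpow_zero, one_mul]
    rfl
  have hL0 : ∀ (a : V), Mem 2 a → ∀ j, Summable fun k => ‖a j k‖ ^ 2 := fun a ha j =>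
    (ga _ (ha j)).1
  have hadd : ∀ f g : Z2 → ℂ, (Summable fun k => ‖f k‖ ^ 2) → (Summable fun k => ‖g k‖ ^ 2) →
      Summable fun k => ‖f k + g k‖ ^ 2 := by
    intro f g hf hg
    refine Summable.of_nonneg_of_le (fun k => by positivity) (fun k => ?_)
      ((hf.mul_left 2).add (hg.mul_left 2))
    have e1 := norm_add_le (f k) (g k)
    have e2 : ‖f k + g k‖ ^ 2 ≤ (‖f k‖ + ‖g k‖) ^ 2 := pow_le_pow_left₀ (norm_nonneg _) e1 2
    nlinarith [sq_nonneg (‖f k‖ - ‖g k‖)]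
  -- decomposition of the right hand side
  have hvφ : v t = φ + Ap := by rw [hφ]; abel
  have hdec : ∀ j k, adv (v t) (v t) j k + Fr j k =
      adv φ φ j k + (adv Ap φ j k + adv φ Ap j k) + (Fr + adv Ap Ap) j k := by
    intro j k
    have a1 := (hABL φ Ap (φ + Ap) hMφ hMA (mf 2 _ _ hMφ hMA).2.1).1
    have a2 := (hABL φ Ap φ hMφ hMA hMφ).2.1
    have a3 := (hABL φ Ap Ap hMφ hMA hMA).2.1
    rw [hvφ, a1, a2, a3]
    show (adv φ φ j k + adv φ Ap j k) + (adv Ap φ j k + adv Ap Ap j k) + Fr j k =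
      adv φ φ j k + (adv Ap φ j k + adv φ Ap j k) + (Fr j k + adv Ap Ap j k)
    ring
  have hG : ∀ j, Summable fun k => ‖adv (v t) (v t) j k + Fr j k‖ ^ 2 := fun j =>
    hadd _ _ (hL _ _ hMv hMv j) (hL0 _ hMF j)
  -- the derivative
  have hd : HasDerivWithinAt (fun r => hm (v r - apx ν p n (tht ν n r)) +
      mu (v r - apx ν p n (tht ν n r)))
      (∑ j, (∑' k, w1 k * (-2 * ν * sq k ^ 2 * ‖v t j k - Ap j k‖ ^ 2 -
        2 * ((starRingEnd ℂ) (v t j k - Ap j k) * (adv (v t) (v t) j k + Fr j k)).re)) +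
      ∑ j, (∑' k, w0 k * (-2 * ν * sq k ^ 2 * ‖v t j k - Ap j k‖ ^ 2 -
        2 * ((starRingEnd ℂ) (v t j k - Ap j k) * (adv (v t) (v t) j k + Fr j k)).re)))
      (Set.Icc 0 T) t := by
    have h1 := HasDerivWithinAt.fun_sum (u := (Finset.univ : Finset (Fin 2)))
      fun j _ => hENW ν s T M p n v w1 hν hs hT hM hp hv nei_w1 j t ht
    have h0 := HasDerivWithinAt.fun_sum (u := (Finset.univ : Finset (Fin 2)))
      fun j _ => hENW ν s T M p n v w0 hν hs hT hM hp hv nei_w0 j t ht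
    refine (h1.add h0).congr_of_eventuallyEq (Filter.Eventually.of_forall fun r => ?_) ?_
    · change hm (v r - apx ν p n (tht ν n r)) + mu (v r - apx ν p n (tht ν n r)) = _
      unfold hm mu
      simp only [nei_hmS, nei_mu0]
      rfl
    · change hm (v t - apx ν p n (tht ν n t)) + mu (v t - apx ν p n (tht ν n t)) = _
      unfold hm mu
      simp only [nei_hmS, nei_mu0]
      rfl
  refine ⟨_, hd, fun hsmall => ?_⟩
  -- the value of the derivative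
  have e1 : ∀ j, ∑' k, w1 k * (-2 * ν * sq k ^ 2 * ‖v t j k - Ap j k‖ ^ 2 -
        2 * ((starRingEnd ℂ) (v t j k - Ap j k) * (adv (v t) (v t) j k + Fr j k)).re) =
      -2 * ν * grS (φ j) - 2 * ∑' k, ((starRingEnd ℂ) (off (φ j) k) *
        (adv (v t) (v t) j k + Fr j k)).re / sq k := fun j =>
    nei_split ν (φ j) (fun k => adv (v t) (v t) j k + Fr j k)
      (ga _ (hMφ j)).2.1 (ga _ (hMφ j)).1 (hG j)
  have e0 : ∀ j, ∑' k, w0 k * (-2 * ν * sq k ^ 2 * ‖v t j k - Ap j k‖ ^ 2 -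
        2 * ((starRingEnd ℂ) (v t j k - Ap j k) * (adv (v t) (v t) j k + Fr j k)).re) =
      -2 * ((starRingEnd ℂ) (φ j 0) * (adv (v t) (v t) j 0 + Fr j 0)).re := by
    intro j
    rw [tsum_eq_single 0]
    · rw [nei_sq_zero]
      simp only [w0, if_true, hφ, Pi.sub_apply]
      ring
    · intro k hk
      simp [w0, hk]
  rw [Finset.sum_congr rfl fun j _ => e1 j, Finset.sum_congr rfl fun j _ => e0 j,
    Finset.sum_sub_distrib, ← Finset.mul_sum, ← Finset.mul_sum, ← Finset.mul_sum]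
  have gP : grd φ = ∑ j, grS (φ j) := rfl
  rw [← gP]
  -- splitting of the pairings
  have s1 : ∀ j, Summable fun k => ((starRingEnd ℂ) (off (φ j) k) * adv φ φ j k).re / sq k :=
    fun j => ned_sum (φ j) (adv φ φ j) (ga _ (hMφ j)).1 (hL _ _ hMφ hMφ j)
  have s2 : ∀ j, Summable fun k => ((starRingEnd ℂ) (off (φ j) k) *
      (adv Ap φ j k + adv φ Ap j k)).re / sq k := fun j =>
    ned_sum (φ j) (fun k => adv Ap φ j k + adv φ Ap j k) (ga _ (hMφ j)).1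
      (hadd _ _ (hL _ _ hMA hMφ j) (hL _ _ hMφ hMA j))
  have s3 : ∀ j, Summable fun k => ((starRingEnd ℂ) (off (φ j) k) *
      (Fr + adv Ap Ap) j k).re / sq k := fun j =>
    ned_sum (φ j) ((Fr + adv Ap Ap) j) (ga _ (hMφ j)).1 (hL0 _ hMR j)
  have hHs : ∑ j, ∑' k, ((starRingEnd ℂ) (off (φ j) k) *
        (adv (v t) (v t) j k + Fr j k)).re / sq k =
      (∑ j, ∑' k, ((starRingEnd ℂ) (off (φ j) k) * adv φ φ j k).re / sq k) +
      (∑ j, ∑' k, ((starRingEnd ℂ) (off (φ j) k) *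
        (adv Ap φ j k + adv φ Ap j k)).re / sq k) +
      (∑ j, ∑' k, ((starRingEnd ℂ) (off (φ j) k) * (Fr + adv Ap Ap) j k).re / sq k) := by
    rw [← Finset.sum_add_distrib, ← Finset.sum_add_distrib]
    refine Finset.sum_congr rfl fun j _ => ?_
    rw [← (s1 j).tsum_add (s2 j), ← ((s1 j).add (s2 j)).tsum_add (s3 j)]
    refine tsum_congr fun k => ?_
    rw [hdec j k, mul_add, mul_add, Complex.add_re, Complex.add_re, add_div, add_div]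
  have hMs : ∑ j, ((starRingEnd ℂ) (φ j 0) * (adv (v t) (v t) j 0 + Fr j 0)).re =
      (∑ j, ((starRingEnd ℂ) (φ j 0) * adv φ φ j 0).re) +
      (∑ j, ((starRingEnd ℂ) (φ j 0) * (adv Ap φ j 0 + adv φ Ap j 0)).re) +
      (∑ j, ((starRingEnd ℂ) (φ j 0) * (Fr + adv Ap Ap) j 0).re) := by
    rw [← Finset.sum_add_distrib, ← Finset.sum_add_distrib]
    refine Finset.sum_congr rfl fun j _ => ?_
    rw [hdec j 0, mul_add, mul_add, Complex.add_re, Complex.add_re]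
  rw [hHs, hMs]
  -- the bounds
  have hm0 : Mem 2 (0 : V) := by
    intro j
    unfold MemS
    simp [norm_zero, summable_zero]
  have hr0 : Rl (0 : V) := by
    intro j k
    simp
  have b1 := HM 0 φ hm0 hMφ hr0 hRφ
  have b2 := MN 0 φ hm0 hMφ
  rw [sub_zero, ned_adv0, ned_flu0, ned_grd0] at b1 b2
  simp only [Pi.zero_apply, sub_zero, Real.sqrt_zero, zero_mul, mul_zero, add_zero] at b1 b2
  obtain ⟨wn1, wn2⟩ := hwn n hn1 θ hθ0 hθ1
  have b3 := WA φ Ap hMφ hMA wn1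
  have b4 := WM φ Ap hMφ hMA wn1
  have b5 := hRST φ (Fr + adv Ap Ap) hMφ hMR
  have b6 := hres n ((le_max_left n₁ n₂).trans hn) hn1 θ hθ0 hθ1
  obtain ⟨-, -, g1, g2, g3, -, g5, g6, -⟩ := gb _ hMφ
  have hw0 : 0 ≤ wn Ap := Finset.sum_nonneg fun j _ => tsum_nonneg fun k => by positivity
  have key := ned_real A B C₁ C₂ K₁ K₂ ν n θ (wn Ap) (hm φ) (mu φ) (flu φ) (grd φ) _ _ _ _ _ _ _
    hA hB hC₁ hC₂ hK₁ hK₂ hν hnR hn2 hθ0 hθ1 hw0 wn2 g1 g6 g2 g3 g5 b1 b2 b3 b4 b5 b6 hsmall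
  refine le_trans (le_of_eq ?_) key
  ring

end HB
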