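import Pool.Agent.H61.HB.All
import Pool.Agent.H61.HB.FND2
import Pool.Agent.H26.HB.ABL
import Pool.Agent.H50.HB.ASH
import Pool.Agent.H23.HB.BTS
import Pool.Agent.H91.HB.CRD
import Pool.Agent.H74.HB.CRO
import Pool.Agent.H25.HB.CTA
import Pool.Agent.H52.HB.DCA
import Pool.Agent.H54.HB.DLW
import Pool.Agent.H81.HB.ENW
import Pool.Agent.H53.HB.FSA
import Pool.Agent.H21.HB.FSB
import Pool.Agent.H71.HB.GLD
import Pool.Agent.H1.HB.IGA
import Pool.Agent.H3.HB.ITH
import Pool.Agent.H72.HB.LOW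
import Pool.Agent.H61.HB.MUB
import Pool.Agent.H61.HB.NED
import Pool.Agent.H14.HB.NRW
import Pool.Agent.H70.HB.OSB
import Pool.Agent.H22.HB.RSB
import Pool.Agent.H86.HB.RST
import Pool.Agent.H62.HB.SHF
import Pool.Agent.H36.HB.WNB
import Pool.Agent.H46.HB.WTA
import Pool.Agent.H1.HB.WTM

set_option autoImplicit false

/-! Project HB: rows of the fourth batch put together. -/

namespace HB.All

open HB

theorem ABL : ABLStmt := HB.abl_thm BIL
theorem BTS : BTSStmt := HB.bts_thm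
theorem FSB : FSBStmt := HB.fsb_thm
theorem ITH : ITHStmt := HB.ith_thm
theorem MUB : MUBStmt := HB.mub_thm FSB
theorem RST : RSTStmt := HB.rst_thm GRF
theorem SHF : SHFStmt := HB.shf_thm FSB
theorem WNB : WNBStmt := HB.wnb_thm FSB
theorem WTA : WTAStmt := HB.wta_thm YNG GRF
theorem WTM : WTMStmt := HB.wtm_thm
theorem ASH : ASHStmt := HB.ash_thm FSB
theorem CRO : CROStmt := HB.cro_thm ABL ASH MUB SHF FSB MMB
theorem DLW : DLWStmt := HB.dlw_thm SHF FSB MMB
theorem FSA : FSAStmt := HB.fsa_thm FSB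
theorem IGA : IGAStmt := HB.iga_thm FSB FSA
theorem LOW : LOWStmt := HB.low_thm FSB ABL ASH
theorem NRW : NRWStmt := HB.nrw_thm SHF FSB MMB
theorem OSB : OSBStmt := HB.osb_thm LOW MUB SHF FSB MMB
theorem RSB : RSBStmt := HB.rsb_thm ABL DLW CRO OSB FSB MMB
theorem CTA : CTAStmt := HB.cta_thm MMB CONT FSB FSA
theorem DCA : DCAStmt := HB.dca_thm NRW FSA FSB MMB
theorem ENW : ENWStmt := HB.enw_thm CTA CONT ADC MMB
theorem NED : NEDStmt := HB.ned_thm ENW ABL RSB RST HMW MNW WTA WTM WNB GRF FSA FSB MMB BIL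
theorem CRD : CRDStmt := HB.crd_thm NED BTS ITH CTA GRF
theorem GLD : GLDStmt := HB.gld_thm CRD IGA GLB LGR GRF CTA FSA FSB MMB
theorem FND2 : FND2Stmt := fnd2_thm GLD DCA FSA FSB MMB

end HB.All
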