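import Pool.Agent.H61.HB.Stmts5

set_option autoImplicit false

namespace HB

theorem fb3_thm (hCRB : CB3Stmt) (hFLU : FLUStmt) (hRES : RESStmt) (hGRF : GR3Stmt)
    (hGRC : GC3Stmt) (hMMB : MMBStmt) : FB3Stmt := by
  obtain ⟨C, c, hC, hc, hcrb⟩ := hCRB
  obtain ⟨c₀, hc₀, hflu⟩ := hFLU
  intro ν s u₀ hν hs hmem hreal hG
  obtain ⟨u, hu0, hu, hlim⟩ := hG
  have hsm : ∀ t : ℝ, 0 ≤ t → Mem 2 (u t) := by
    intro t ht
    exact (hMMB.2.2.2.2.1 2 s (u t) hs ((hu t ht).1.sol.cts.1 t ⟨ht, le_refl t⟩)).1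
  have hgr : ∀ t : ℝ, 0 ≤ t → 0 ≤ flu (u t) ∧ flu (u t) ≤ dsq (u t) ∧ hp (u t) ≤ dsq (u t) ∧
      0 ≤ dsq (u t) := by
    intro t ht
    obtain ⟨h1, h2, h3, h4, -⟩ := hGRF.2.1 (u t) (hsm t ht)
    exact ⟨by linarith, by linarith, h4, by linarith⟩
  have hcont : ∀ T : ℝ, 0 ≤ T → ContinuousOn (fun t => flu (u t)) (Set.Icc 0 T) ∧
      ContinuousOn (fun t => hp (u t)) (Set.Icc 0 T) ∧
      ContinuousOn (fun t => dsq (u t)) (Set.Icc 0 T) := by
    intro T hT
    obtain ⟨h1, h2, h3, -⟩ := hGRC ν s T u u hs (hu T hT).1.sol (hu T hT).1.sol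
    exact ⟨h1, h2, h3⟩
  -- a time from which on the fluctuation is small
  obtain ⟨T₀, hT₀, hT₀s⟩ : ∃ T₀ : ℝ, 0 ≤ T₀ ∧ flu (u T₀) ≤ (c₀ * ν) ^ 2 := by
    have h3 : ∀ᶠ t : ℝ in Filter.atTop, flu (u t) < (c₀ * ν) ^ 2 :=
      hlim.eventually_lt_const (by positivity)
    obtain ⟨T, hT⟩ := (h3.and (Filter.eventually_ge_atTop (0 : ℝ))).exists
    exact ⟨T, hT.2, hT.1.le⟩
  have htail : ∀ t : ℝ, 0 ≤ t → flu (u (T₀ + t)) ≤ flu (u T₀) ∧
      ∫ r in (0 : ℝ)..t, dsq (u (T₀ + r)) ≤ flu (u T₀) / ν := by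
    intro t ht
    have hsh : Sol ν s t (fun r => u (T₀ + r)) :=
      hRES.2.1 ν s T₀ t u hT₀ (hu (T₀ + t) (by linarith)).1.sol
    have h := hflu ν s t (fun r => u (T₀ + r)) hν hs ht hsh (by
      intro r hr
      exact (hu (T₀ + t) (by linarith)).1.real (T₀ + r) ⟨by linarith [hr.1], by linarith [hr.2]⟩)
      (by simpa using hT₀s) t ⟨ht, le_refl t⟩
    simp only [add_zero] at h
    refine ⟨h.1.trans ?_, h.2⟩
    have h1 : Real.exp (-ν * t) ≤ 1 := by
      rw [Real.exp_le_one_iff]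
      have := mul_nonneg hν.le ht
      linarith
    have := (hgr T₀ hT₀).1
    nlinarith
  -- bound for the integral of `dsq`
  set M : ℝ := (∫ r in (0 : ℝ)..T₀, dsq (u r)) + flu (u T₀) / ν with hM
  have hMb : ∀ T : ℝ, 0 ≤ T → ∫ r in (0 : ℝ)..T, dsq (u r) ≤ M := by
    intro T hT
    have hint : ∀ a b : ℝ, 0 ≤ a → 0 ≤ b → IntervalIntegrable (fun r => dsq (u r))
        MeasureTheory.volume a b := by
      intro a b ha hb
      apply ContinuousOn.intervalIntegrable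
      refine (hcont (max a b) (ha.trans (le_max_left _ _))).2.2.mono ?_
      intro x hx
      rw [Set.uIcc, Set.mem_Icc] at hx
      exact ⟨(le_min ha hb).trans hx.1, hx.2⟩
    by_cases h : T ≤ T₀
    · have h1 : ∫ r in (0 : ℝ)..T, dsq (u r) ≤ ∫ r in (0 : ℝ)..T₀, dsq (u r) := by
        rw [← intervalIntegral.integral_add_adjacent_intervals (hint 0 T le_rfl hT)
          (hint T T₀ hT hT₀)]
        have : 0 ≤ ∫ r in T..T₀, dsq (u r) :=
          intervalIntegral.integral_nonneg h fun r hr => (hgr r (hT.trans hr.1)).2.2.2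
        linarith
      have h2 : 0 ≤ flu (u T₀) / ν := div_nonneg (hgr T₀ hT₀).1 hν.le
      linarith
    · have h0 : T₀ ≤ T := (not_le.mp h).le
      rw [← intervalIntegral.integral_add_adjacent_intervals (hint 0 T₀ le_rfl hT₀)
          (hint T₀ T hT₀ hT)]
      have h2 := (htail (T - T₀) (by linarith)).2
      have h3 : ∫ r in (0 : ℝ)..(T - T₀), dsq (u (T₀ + r)) = ∫ r in T₀..T, dsq (u r) := by
        rw [intervalIntegral.integral_comp_add_left (fun r => dsq (u r)) T₀]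
        simp
      rw [h3] at h2
      linarith
  have hM0 : 0 ≤ M := by
    have := hMb 0 le_rfl
    simpa using this
  set L : ℝ := M / ν with hL
  have hL0 : 0 ≤ L := by positivity
  refine ⟨(c * ν) ^ 2 / (8 * Real.exp (C * L)), by positivity, ?_⟩
  intro v₀ hv₀ hv₀r hclose
  refine hcrb ν s L u v₀ hν hs hL0 (fun T hT => ⟨(hu T hT).1.sol, (hu T hT).1.real⟩) ?_ hv₀ hv₀r ?_
  · intro T hT
    have hg := hcont T hT
    have hint1 : IntervalIntegrable (fun r => hp (u r) / ν) MeasureTheory.volume 0 T := by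
      apply ContinuousOn.intervalIntegrable
      rw [Set.uIcc_of_le hT]
      exact hg.2.1.div_const _
    have hint2 : IntervalIntegrable (fun r => (1 / ν) * dsq (u r))
        MeasureTheory.volume 0 T := by
      apply ContinuousOn.intervalIntegrable
      rw [Set.uIcc_of_le hT]
      exact hg.2.2.const_smul (1 / ν)
    have hle : ∫ r in (0 : ℝ)..T, hp (u r) / ν ≤ ∫ r in (0 : ℝ)..T, (1 / ν) * dsq (u r) := by
      apply intervalIntegral.integral_mono_on hT hint1 hint2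
      intro r hr
      have h3 := (hGRF.2.1 (u r) (hsm r hr.1)).2.2.2.1
      rw [div_mul_eq_mul_div, one_mul]
      gcongr
    refine hle.trans ?_
    rw [intervalIntegral.integral_const_mul]
    have h8 : (1 / ν) * ∫ r in (0 : ℝ)..T, dsq (u r) ≤ (1 / ν) * M :=
      mul_le_mul_of_nonneg_left (hMb T hT) (by positivity)
    refine h8.trans (le_of_eq ?_)
    rw [hL]
    ring
  · have hw : Mem 2 (v₀ - u 0) := by
      rw [hu0]
      exact (hMMB.2.2.2.2.1 2 s _ hs (hMMB.2.2.2.2.2 s v₀ u₀ hv₀ hmem).1).1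
    have h1 := (hGRF.2.1 (v₀ - u 0) hw).2.2.2.2
    have h2 : hn (v₀ - u 0) + mu (v₀ - u 0) < (c * ν) ^ 2 / (2 * Real.exp (C * L)) := by
      rw [hu0] at h1 ⊢
      have h3 : (c * ν) ^ 2 / (2 * Real.exp (C * L)) =
          4 * ((c * ν) ^ 2 / (8 * Real.exp (C * L))) := by
        field_simp
        ring
      rw [h3]
      linarith
    have he := Real.exp_pos (C * L)
    calc (hn (v₀ - u 0) + mu (v₀ - u 0)) * Real.exp (C * L)
        < (c * ν) ^ 2 / (2 * Real.exp (C * L)) * Real.exp (C * L) := by gcongr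
      _ = (c * ν) ^ 2 / 2 := by field_simp
      _ < (c * ν) ^ 2 := by
        have : 0 < (c * ν) ^ 2 := by positivity
        linarith

end HB
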