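import Pool.Agent.H61.HB.All
import Pool.Agent.H3.HB.CB3
import Pool.Agent.H61.HB.FA3
import Pool.Agent.H61.HB.FB3
import Pool.Agent.H61.HB.FC3
import Pool.Agent.H21.HB.GC3
import Pool.Agent.H86.HB.GR3
import Pool.Agent.H46.HB.HM3
import Pool.Agent.H45.HB.HW3
import Pool.Agent.H20.HB.LG3
import Pool.Agent.H58.HB.MN3
import Pool.Agent.H84.HB.NE3
import Pool.Agent.H23.HB.SC3
import Pool.Agent.H44.HB.SM3
import Pool.Agent.H54.HB.ST3
import Pool.Agent.H74.HB.TB3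
import Pool.Agent.H40.HB.TC3
import Pool.Agent.H25.HB.TR3
import Pool.Agent.H27.HB.TS3

set_option autoImplicit false

/-! Project HB: rows of the fifth batch put together. -/

namespace HB.All

open HB

theorem GC3 : GC3Stmt := HB.gc3_thm MMB CONT
theorem GR3 : GR3Stmt := HB.gr3_thm
theorem MN3 : MN3Stmt := HB.mn3_thm GR3 LIN MMB
theorem SC3 : SC3Stmt := HB.sc3_thm
theorem SM3 : SM3Stmt := HB.sm3_thm
theorem TR3 : TR3Stmt := HB.tr3_thm SM3 GR3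
theorem TS3 : TS3Stmt := HB.ts3_thm YNG GR3 SM3
theorem LG3 : LG3Stmt := HB.lg3_thm ENE CAN TS3 GR3 GC3 DIV MMB
theorem TB3 : TB3Stmt := HB.tb3_thm TR3 GR3
theorem TC3 : TC3Stmt := HB.tc3_thm TR3 GR3
theorem HW3 : HW3Stmt := HB.hw3_thm TB3 TC3 LIN GR3 GRF MMB BIL
theorem NE3 : NE3Stmt := HB.ne3_thm WEN HW3 MN3 GR3 GRF MMB BIL
theorem ST3 : ST3Stmt := HB.st3_thm NE3 GC3
theorem CB3 : CB3Stmt := HB.cb3_thm ST3 LG3 GLB GR3 GC3 MMB
theorem FA3 : FA3Stmt := HB.fa3_thm TRU GLB CB3 GR3 GC3 MMB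
theorem FB3 : FB3Stmt := HB.fb3_thm CB3 FLU RES GR3 GC3 MMB
theorem HM3 : HM3Stmt := HB.hm3_thm CB3
theorem FC3 : FC3Stmt := HB.fc3_thm HM3 SCA SC3 SCB DIS UNQ

end HB.All
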