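import Mathlib

/-!
Project HB (MP_91403e_an, two-dimensional hyperviscous Burgers equation on the torus), helper61.
Everything is written for Fourier coefficients: a vector field on `(ℝ/2πℤ)²` is
`u : Fin 2 → ℤ × ℤ → ℂ` (`u j k` = `k`-th coefficient of the `j`-th component).
-/

set_option autoImplicit false

namespace HB

abbrev Z2 := ℤ × ℤ

/-- Fourier coefficients of a vector field with two components -/
abbrev V := Fin 2 → Z2 → ℂ

/-- `|k|²` -/
noncomputable def sq (k : Z2) : ℝ := (k.1 : ℝ) ^ 2 + (k.2 : ℝ) ^ 2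

/-- the `i`-th component of `k` -/
noncomputable def co (i : Fin 2) (k : Z2) : ℝ := if i = 0 then (k.1 : ℝ) else (k.2 : ℝ)

/-- `∑_i w_i(l) · i (k-l)_i f(k-l)` -/
noncomputable def trm (w : V) (f : Z2 → ℂ) (k l : Z2) : ℂ :=
  ∑ i : Fin 2, w i l * (Complex.I * (co i (k - l) : ℂ)) * f (k - l)

/-- coefficients of `(w · ∇) f` for a scalar `f` -/
noncomputable def dot (w : V) (f : Z2 → ℂ) : Z2 → ℂ := fun k => ∑' l : Z2, trm w f k l

/-- coefficients of `(u · ∇) v` -/
noncomputable def adv (u v : V) : V := fun j => dot u (v j)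

/-- the scalar `f` is in `H^s` -/
def MemS (s : ℝ) (f : Z2 → ℂ) : Prop := Summable fun k => (1 + sq k) ^ s * ‖f k‖ ^ 2

/-- square of the `H^s` norm of the scalar `f` -/
noncomputable def nqS (s : ℝ) (f : Z2 → ℂ) : ℝ := ∑' k, (1 + sq k) ^ s * ‖f k‖ ^ 2

def Mem (s : ℝ) (u : V) : Prop := ∀ j, MemS s (u j)

noncomputable def nsq (s : ℝ) (u : V) : ℝ := ∑ j, nqS s (u j)

/-- the field is real valued -/
def Rl (u : V) : Prop := ∀ j k, u j (-k) = (starRingEnd ℂ) (u j k)

/-- the component of `u` in direction `m` depends only on `m · x` -/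
def Tri (m : ℝ × ℝ) (u : V) : Prop :=
  ∀ k : Z2, ((m.1 * k.2 - m.2 * k.1 : ℝ) : ℂ) * ((m.1 : ℂ) * u 0 k + (m.2 : ℂ) * u 1 k) = 0

/-- continuous on `[0,T]` with values in `H^s` -/
def Cts (s T : ℝ) (u : ℝ → V) : Prop :=
  (∀ t ∈ Set.Icc 0 T, Mem s (u t)) ∧
  ∀ t ∈ Set.Icc 0 T, Filter.Tendsto (fun r => nsq s (u r - u t)) (nhdsWithin t (Set.Icc 0 T))
    (nhds 0)

/-- `u` is continuous into `H^s` and solves `u' = - ν Δ² u - (u · ∇) u` on `[0,T]` -/
structure Sol (ν s T : ℝ) (u : ℝ → V) : Prop where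
  cts : Cts s T u
  eqn : ∀ (j : Fin 2) (k : Z2), ∀ t ∈ Set.Icc 0 T,
    HasDerivWithinAt (fun r => u r j k)
      (-((ν * sq k ^ 2 : ℝ) : ℂ) * u t j k - adv (u t) (u t) j k) (Set.Icc 0 T) t

/-- the Duhamel integral -/
noncomputable def duh (ν : ℝ) (G : ℝ → V) (t : ℝ) : V := fun j k =>
  ∫ r in (0 : ℝ)..t, (Real.exp (-(ν * sq k ^ 2) * (t - r)) : ℂ) * G r j k

/-- the linear semigroup -/
noncomputable def sgr (ν t : ℝ) (u : V) : V := fun j k =>
  (Real.exp (-(ν * sq k ^ 2) * t) : ℂ) * u j k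

/-- `f` without its mean -/
noncomputable def off (f : Z2 → ℂ) : Z2 → ℂ := fun k => if k = 0 then 0 else f k

/-- `L²` norm squared of `f` without its mean -/
noncomputable def flS (f : Z2 → ℂ) : ℝ := ∑' k, ‖off f k‖ ^ 2

/-- `L²` norm squared of `Δ f` -/
noncomputable def dsS (f : Z2 → ℂ) : ℝ := ∑' k, sq k ^ 2 * ‖f k‖ ^ 2

noncomputable def flu (u : V) : ℝ := ∑ j, flS (u j)

noncomputable def dsq (u : V) : ℝ := ∑ j, dsS (u j)

/-- real linear combination of the components -/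
noncomputable def lin (c : Fin 2 → ℝ) (u : V) : Z2 → ℂ := fun k => ∑ j, (c j : ℂ) * u j k

/-- real part of the `L²` scalar product without the means -/
noncomputable def prd (f g : Z2 → ℂ) : ℝ := ∑' k, ((starRingEnd ℂ) (off f k) * g k).re

/-- coefficients of `div w` -/
noncomputable def dvg (w : V) : Z2 → ℂ := fun l => ∑ i : Fin 2, Complex.I * (co i l : ℂ) * w i l

/-- `∑_{k,l} conj f̃(k) g(l) f̃(k-l)` -/
noncomputable def tr3 (g f : Z2 → ℂ) : ℂ :=
  ∑' x : Z2 × Z2, (starRingEnd ℂ) (off f x.1) * g x.2 * off f (x.1 - x.2)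

/-- the constant of the embedding into absolutely convergent Fourier series -/
noncomputable def cW : ℝ := ∑' k : Z2, ((1 + sq k) ^ 2)⁻¹

/-- the Hilbert space used in the fixed point argument -/
noncomputable abbrev E := lp (fun _ : Fin 2 × Z2 => ℂ) 2

noncomputable def toV (s : ℝ) (f : E) : V := fun j k =>
  (((1 + sq k) ^ (-(s / 2)) : ℝ) : ℂ) * f (j, k)

end HB
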