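import Pool.Agent.H61.HB.Stmts

set_option autoImplicit false

namespace HB

theorem flu_nonneg (u : V) : 0 ≤ flu u := by
  unfold flu flS
  exact Finset.sum_nonneg fun j _ => tsum_nonneg fun k => by positivity

theorem flu_le (hMMB : MMBStmt) (hDIV : DIVStmt) (s : ℝ) (hs : 2 ≤ s) (u v : V) (hu : Mem s u)
    (hv : Mem s v) : flu v ≤ 2 * nsq s (v - u) + 2 * flu u := by
  have hvu : Mem s (v - u) := (hMMB.2.2.2.2.2 s v u hv hu).1
  have h2 : Mem 2 (v - u) := (hMMB.2.2.2.2.1 2 s (v - u) hs hvu).1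
  have h3 : nsq 2 (v - u) ≤ nsq s (v - u) := (hMMB.2.2.2.2.1 2 s (v - u) hs hvu).2
  have h4 : Mem 2 u := (hMMB.2.2.2.2.1 2 s u hs hu).1
  -- summability of the squares without weights
  have hsum : ∀ f : Z2 → ℂ, MemS 2 f → Summable fun k => ‖off f k‖ ^ 2 := by
    intro f hf
    refine Summable.of_nonneg_of_le (fun k => by positivity) (fun k => ?_) hf
    unfold off
    have h1 : (1 : ℝ) ≤ (1 + sq k) ^ (2 : ℝ) := by
      apply Real.one_le_rpow _ (by norm_num)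
      unfold sq
      nlinarith [sq_nonneg (k.1 : ℝ), sq_nonneg (k.2 : ℝ)]
    split
    · have h2 : 0 ≤ (1 + sq k) ^ (2 : ℝ) * ‖f k‖ ^ 2 := mul_nonneg (by linarith) (sq_nonneg _)
      simpa using h2
    · nlinarith [sq_nonneg ‖f k‖]
  have hj : ∀ j : Fin 2, flS (v j) ≤ 2 * nqS 2 ((v - u) j) + 2 * flS (u j) := by
    intro j
    have ha := hsum ((v - u) j) (h2 j)
    have hb := hsum (u j) (h4 j)
    have h5 : flS ((v - u) j) ≤ nqS 2 ((v - u) j) := (hDIV.2.2 ((v - u) j) (h2 j)).2.2.1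
    have h6 : flS (v j) ≤ 2 * flS ((v - u) j) + 2 * flS (u j) := by
      unfold flS
      rw [← tsum_mul_left, ← tsum_mul_left, ← (ha.mul_left 2).tsum_add (hb.mul_left 2)]
      have hle : ∀ k, ‖off (v j) k‖ ^ 2 ≤ 2 * ‖off ((v - u) j) k‖ ^ 2 + 2 * ‖off (u j) k‖ ^ 2 := by
        intro k
        have he : off (v j) k = off ((v - u) j) k + off (u j) k := by
          unfold off
          split <;> simp
        have := norm_add_le (off ((v - u) j) k) (off (u j) k)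
        rw [← he] at this
        have h0 := norm_nonneg (off (v j) k)
        nlinarith [sq_nonneg (‖off ((v - u) j) k‖ - ‖off (u j) k‖)]
      exact Summable.tsum_le_tsum hle
        (Summable.of_nonneg_of_le (fun k => by positivity) hle ((ha.mul_left 2).add (hb.mul_left 2)))
        ((ha.mul_left 2).add (hb.mul_left 2))
    linarith
  have : flu v ≤ 2 * nsq 2 (v - u) + 2 * flu u := by
    unfold flu nsq
    rw [Finset.mul_sum, Finset.mul_sum, ← Finset.sum_add_distrib]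
    exact Finset.sum_le_sum fun j _ => hj j
  linarith

theorem fin_thm (hGLB : GLBStmt) (hTRM : TRMStmt) (hSTB : STBStmt) (hSML : SMLStmt)
    (hGLU : GLUStmt) (hUNQ : UNQStmt) (hDIS : DISStmt) (hRES : RESStmt) (hMMB : MMBStmt)
    (hDIV : DIVStmt) : FINStmt := by
  obtain ⟨c₀, hc₀, hsml⟩ := hSML
  intro ν s m u₀ hν hs hm hmem hreal htri
  obtain ⟨K, hK, hKb⟩ := hTRM ν (flu u₀) m hν (flu_nonneg u₀) hm
  -- the global triangular solution
  obtain ⟨u, hu0, hu⟩ := hGLB ν s K u₀ hν hs hK hmem hreal (by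
    intro T u hT hsol hu0 hr ht
    exact (hKb s T u hs hT hsol (fun t h => ⟨hr t h, ht m hm htri t h⟩) (by rw [hu0]) T
      ⟨hT, le_refl T⟩).2)
  have hdec : ∀ t : ℝ, 0 ≤ t → flu (u t) ≤ K * Real.exp (-ν * t) := by
    intro t ht
    refine (hKb s t u hs ht (hu t ht).1.sol (fun r h => ⟨(hu t ht).1.real r h, ?_⟩)
      (by rw [hu0]) t ⟨ht, le_refl t⟩).1
    exact (hu r h.1).2.1 m hm htri
  -- a time at which the fluctuation is small
  obtain ⟨T, hT0, hT⟩ : ∃ T : ℝ, 0 ≤ T ∧ K * Real.exp (-ν * T) ≤ (c₀ * ν) ^ 2 / 4 := by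
    have h1 : Filter.Tendsto (fun t : ℝ => -ν * t) Filter.atTop Filter.atBot :=
      Filter.tendsto_id.const_mul_atTop_of_neg (by linarith)
    have h2 := (Real.tendsto_exp_atBot.comp h1).const_mul K
    rw [mul_zero] at h2
    have h3 : ∀ᶠ t : ℝ in Filter.atTop, K * Real.exp (-ν * t) < (c₀ * ν) ^ 2 / 4 :=
      h2.eventually_lt_const (by positivity)
    obtain ⟨T, hT⟩ := (h3.and (Filter.eventually_ge_atTop (0 : ℝ))).exists
    exact ⟨T, hT.2, hT.1.le⟩
  obtain ⟨δ₁, K₁, hδ₁, hK₁, hstb⟩ := hSTB ν s T u hν hs hT0 (hu T hT0).1.sol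
  refine ⟨min δ₁ ((c₀ * ν) ^ 2 / (4 * (K₁ + 1))), by positivity, ?_⟩
  intro v₀ hv₀ hv₀r hclose
  have hc1 : nsq s (v₀ - u 0) < δ₁ := by
    rw [hu0]
    exact lt_of_lt_of_le hclose (min_le_left _ _)
  have hc2 : nsq s (v₀ - u 0) < (c₀ * ν) ^ 2 / (4 * (K₁ + 1)) := by
    rw [hu0]
    exact lt_of_lt_of_le hclose (min_le_right _ _)
  obtain ⟨v, hvsol, hv0, hvT, hvr⟩ := hstb v₀ hv₀ hc1
  have hTm : T ∈ Set.Icc (0 : ℝ) T := ⟨hT0, le_refl T⟩
  have hvTm : Mem s (v T) := hvsol.cts.1 T hTm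
  have huTm : Mem s (u T) := (hu T hT0).1.sol.cts.1 T hTm
  have hsmall : flu (v T) ≤ (c₀ * ν) ^ 2 := by
    have h1 := flu_le hMMB hDIV s hs (u T) (v T) huTm hvTm
    have h2 := (hdec T hT0).trans hT
    have h3 : K₁ * nsq s (v₀ - u 0) ≤ (c₀ * ν) ^ 2 / 4 := by
      have h4 : K₁ * nsq s (v₀ - u 0) ≤ (K₁ + 1) * ((c₀ * ν) ^ 2 / (4 * (K₁ + 1))) := by
        have h5 : 0 ≤ nsq s (v₀ - u 0) := hMMB.2.2.2.1 s _
        nlinarith [hc2.le]
      have h6 : (K₁ + 1) * ((c₀ * ν) ^ 2 / (4 * (K₁ + 1))) = (c₀ * ν) ^ 2 / 4 := by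
        field_simp
      linarith
    linarith
  obtain ⟨w, hw0, hw, hwlim⟩ := hsml ν s (v T) hν hs hvTm (hvr hv₀r T hTm) hsmall
  -- glue
  set z : ℝ → V := fun t => if t ≤ T then v t else w (t - T) with hz
  have hz0 : z 0 = v₀ := by
    simp only [hz]
    rw [if_pos hT0, hv0]
  have hzsol : ∀ T' : ℝ, 0 ≤ T' → Sol ν s (T + T') z := by
    intro T' hT'
    exact hGLU ν s T T' v w hT0 hT' hvsol (hw T' hT').1.sol hw0
  have hzreal : ∀ t : ℝ, 0 ≤ t → Rl (z t) := by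
    intro t ht
    simp only [hz]
    by_cases h : t ≤ T
    · rw [if_pos h]
      exact hvr hv₀r t ⟨ht, h⟩
    · rw [if_neg h]
      have h' : T < t := not_le.mp h
      exact (hw (t - T) (by linarith)).1.real (t - T) ⟨by linarith, le_refl _⟩
  have hzT : ∀ T' : ℝ, 0 ≤ T' → Sol ν s T' z := by
    intro T' hT'
    exact hRES.1 ν s (T + T') T' z (by linarith) (hzsol T' hT')
  refine ⟨z, hz0, fun T' hT' => ⟨⟨hzT T' hT', fun t ht => hzreal t ht.1,
    hDIS ν s T' z hν hs hT' (hzT T' hT')⟩, ?_⟩, ?_⟩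
  · intro y hy hy0 t ht
    exact hUNQ ν s T' y z hν hs hT' hy.sol (hzT T' hT') (by rw [hy0, hz0]) t ht
  · have h1 : Filter.Tendsto (fun t : ℝ => flu (w (t - T))) Filter.atTop (nhds 0) := by
      have h2 : Filter.Tendsto (fun t : ℝ => t - T) Filter.atTop Filter.atTop :=
        Filter.tendsto_atTop_add_const_right _ (-T) Filter.tendsto_id
      exact hwlim.comp h2
    refine h1.congr' ?_
    filter_upwards [Filter.eventually_gt_atTop T] with t ht
    simp only [hz]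
    rw [if_neg (by linarith)]

end HB
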