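import Pool.Agent.H61.HB.Stmts3

set_option autoImplicit false

namespace HB

theorem fnc_thm (hHMC : HMCStmt) (hSCA : SCAStmt) (hSCB : SCBStmt) (hDIS : DISStmt)
    (hUNQ : UNQStmt) : FNCStmt := by
  obtain ⟨c, hc, hhmc⟩ := hHMC
  refine ⟨c, hc, ?_⟩
  intro ν s n v₀ hν hs hn hmem hreal hper hsmall
  have hs0 : 0 ≤ s := by linarith
  have hn0 : (0 : ℝ) < n := by exact_mod_cast hn
  obtain ⟨h1, h2, h3, h4⟩ := hSCA n hn
  obtain ⟨U₀, hU₀, hUr, hUm, hUh⟩ := h1 v₀ hper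
  have hU1 : hm U₀ < (c * ν) ^ 2 := by
    rw [hUh] at hsmall
    have h5 : (c * ν * (n : ℝ) ^ 2) ^ 2 = (n : ℝ) ^ 4 * (c * ν) ^ 2 := by ring
    rw [h5] at hsmall
    exact lt_of_mul_lt_mul_left hsmall (by positivity)
  obtain ⟨U, hU0, hU, hUlim⟩ := hhmc ν s U₀ hν hs (hUm s hs0 hmem) (hUr hreal) hU1
  set v : ℝ → V := fun t => scl n (U ((n : ℝ) ^ 4 * t)) with hv
  have hv0 : v 0 = v₀ := by
    simp only [hv, mul_zero]
    rw [hU0, hU₀]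
  have hsol : ∀ T : ℝ, 0 ≤ T → Sol ν s T v := by
    intro T hT
    exact hSCB n ν s T U hn hν hs hT (hU ((n : ℝ) ^ 4 * T) (by positivity)).1.sol
  have hrl : ∀ t : ℝ, 0 ≤ t → Rl (v t) := by
    intro t ht
    have h5 : 0 ≤ (n : ℝ) ^ 4 * t := by positivity
    exact (h2 (U ((n : ℝ) ^ 4 * t))).1 ((hU _ h5).1.real _ ⟨h5, le_rfl⟩)
  refine ⟨v, hv0, fun T hT => ⟨⟨hsol T hT, fun t ht => hrl t ht.1,
    hDIS ν s T v hν hs hT (hsol T hT)⟩, ?_⟩, ?_⟩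
  · intro w hw hw0 t ht
    exact hUNQ ν s T w v hν hs hT hw.sol (hsol T hT) (by rw [hw0, hv0]) t ht
  · have h5 : Filter.Tendsto (fun t : ℝ => (n : ℝ) ^ 4 * t) Filter.atTop Filter.atTop :=
      Filter.tendsto_id.const_mul_atTop (by positivity)
    have h6 := (hUlim.comp h5).const_mul ((n : ℝ) ^ 6)
    rw [mul_zero] at h6
    refine h6.congr fun t => ?_
    simp only [Function.comp, hv]
    rw [(h2 _).2.1]

end HB
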