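import Pool.Agent.H61.HB.Stmts4

/-!
Project HB, row FND.
-/

set_option autoImplicit false

namespace HB

theorem fnd_thm (hTRP : TRPStmt) (hGLD : GLDStmt) (hDCA : DCAStmt) (hFSA : FSAStmt)
    (hFSB : FSBStmt) (hMMB : MMBStmt) : FNDStmt := by
  intro ν s r ε u₀ hν hs hr hε hu hR
  obtain ⟨M, p, hM, hp, hpR, hpu⟩ := hTRP s r (ε / 8) u₀ hs (by linarith) (by positivity) hu hR
  obtain ⟨K, n₁, hK, h1⟩ := hGLD ν M p hν hM hp hpR
  obtain ⟨n₂, h2⟩ := hDCA ν M r (ε / 8) p hν hM hr (by positivity) hp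
  obtain ⟨n₃, hn₃⟩ := exists_nat_gt (8 * K / ε)
  obtain ⟨n, hn1, hn2, hn3, hn4⟩ : ∃ n : ℕ, n₁ ≤ n ∧ n₂ ≤ n ∧ n₃ ≤ n ∧ 1 ≤ n :=
    ⟨max (max n₁ n₂) (max n₃ 1), by simp, by simp, by simp, by simp⟩
  obtain ⟨v, hv0, hv1, hv2, hv3⟩ := h1 n hn1 hn4 s hs
  obtain ⟨h21, h22⟩ := h2 n hn2 hn4
  obtain ⟨hFfin, hFmem, hFadd, hFadv, hFmono, hFpro, hFsh⟩ := hFSB
  obtain ⟨-, -, -, -, hmono, hadd⟩ := hMMB
  have hfs : Fs ((n : ℝ) ^ 2 + M) (apx ν p n 1) := (hFSA ν M p n 1 hM hp).1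
  have hnpos : (0 : ℝ) < n := by exact_mod_cast hn4
  refine ⟨apx ν p n 1, ?_, (hFSA ν M p n 1 hM hp).2.2.2 hpR, hFmem _ s _ hfs, ?_, v, hv0, hv1,
    hv2, ?_⟩
  · refine (hFfin ((n : ℝ) ^ 2 + M)).subset ?_
    rintro k ⟨j, hj⟩
    by_contra hk
    exact hj (hfs j k (not_le.1 hk))
  · have e : apx ν p n 1 - u₀ = (apx ν p n 1 - p) + (p - u₀) := by abel
    have m1 : Mem (-r) (apx ν p n 1) := hFmem _ _ _ hfs
    have m2 : Mem (-r) p := hFmem _ _ _ hp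
    have m3 : Mem (-r) u₀ := (hmono (-r) s u₀ (by linarith) hu).1
    have m4 := (hadd (-r) _ _ m1 m2).1
    have m5 := (hadd (-r) _ _ m2 m3).1
    have h := (hadd (-r) _ _ m4 m5).2.2.2
    rw [e]
    linarith
  · intro t ht
    have ht0 : 0 ≤ t := by linarith
    have e : v t = (v t - apx ν p n (tht ν n t)) + apx ν p n (tht ν n t) := by abel
    have m1 : Mem (-1) (apx ν p n (tht ν n t)) := hFmem _ _ _ (hFSA ν M p n _ hM hp).1
    have m2 : Mem (-1) (v t) := (hmono (-1) s (v t) (by linarith)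
      ((hv1 t ht0).1.sol.cts.1 t ⟨ht0, le_rfl⟩)).1
    have m3 := (hadd (-1) _ _ m2 m1).1
    have h := (hadd (-1) _ _ m3 m1).2.2.2
    have h3 := hv3 t ht0
    have h4 := h22 t (by linarith)
    have h5 : K / n < ε / 8 := by
      have h6 : 8 * K / ε < n := lt_of_lt_of_le hn₃ (by exact_mod_cast hn3)
      rw [div_lt_iff₀ hε] at h6
      rw [div_lt_iff₀ hnpos]
      linarith
    rw [e]
    linarith

end HB
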