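import Mathlib

/-!
# The two-dimensional hyperviscous Burgers equation on the torus, in Fourier coefficients

`∂_t u + (u · ∇) u = - ν Δ² u` on `(ℝ/2πℤ)²`.
-/

set_option autoImplicit false

namespace Pool.HyperBurgers

/-- Fourier coefficients `u j k` (component `j = 0, 1`, frequency `k`) of a vector field on
`(ℝ/2πℤ)²`, that is `u_j (x) = ∑ k, u j k * exp (i k · x)` -/
abbrev Field := Fin 2 → ℤ × ℤ → ℂ

/-- `|k|²` -/
noncomputable def ksq (k : ℤ × ℤ) : ℝ := (k.1 : ℝ) ^ 2 + (k.2 : ℝ) ^ 2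

/-- the component `k_i` of `k` -/
noncomputable def comp (i : Fin 2) (k : ℤ × ℤ) : ℝ := if i = 0 then (k.1 : ℝ) else (k.2 : ℝ)

/-- `u ∈ H^s` -/
def InH (s : ℝ) (u : Field) : Prop := ∀ j, Summable fun k => (1 + ksq k) ^ s * ‖u j k‖ ^ 2

/-- square of the `H^s` norm -/
noncomputable def hsq (s : ℝ) (u : Field) : ℝ := ∑ j, ∑' k, (1 + ksq k) ^ s * ‖u j k‖ ^ 2

/-- square of the homogeneous `H^(-1)` norm of `u` minus its mean -/
noncomputable def hneg (u : Field) : ℝ := ∑ j, ∑' k, if k = 0 then 0 else ‖u j k‖ ^ 2 / ksq k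

/-- square of the `L²` norm of `u` minus its mean (the fluctuation of `u`) -/
noncomputable def fluct (u : Field) : ℝ := ∑ j, ∑' k, if k = 0 then 0 else ‖u j k‖ ^ 2

/-- the field is real valued -/
def RealValued (u : Field) : Prop := ∀ j k, u j (-k) = (starRingEnd ℂ) (u j k)

/-- Fourier coefficients of `(u · ∇) u`: `∑_l ∑_i u_i(l) · i (k-l)_i · u_j(k-l)` -/
noncomputable def transport (u : Field) : Field := fun j k =>
  ∑' l : ℤ × ℤ, ∑ i : Fin 2, u i l * (Complex.I * (comp i (k - l) : ℂ)) * u j (k - l)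

/-- `u` is a real strong solution on `[0,T]`: `u ∈ C([0,T]; H^s) ∩ L²(0,T; H^(s+2))`, and
`u' = - ν Δ² u - (u · ∇) u` for every Fourier coefficient -/
structure StrongSolution (ν s T : ℝ) (u : ℝ → Field) : Prop where
  mem : ∀ t ∈ Set.Icc 0 T, InH s (u t) ∧ RealValued (u t)
  cont : ∀ t ∈ Set.Icc 0 T,
    Filter.Tendsto (fun r => hsq s (u r - u t)) (nhdsWithin t (Set.Icc 0 T)) (nhds 0)
  diss : ∀ j : Fin 2, ∫⁻ t in Set.Icc 0 T, ∑' k : ℤ × ℤ,
    ENNReal.ofReal ((1 + ksq k) ^ (s + 2) * ‖u t j k‖ ^ 2) ≠ ⊤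
  eqn : ∀ (j : Fin 2) (k : ℤ × ℤ), ∀ t ∈ Set.Icc 0 T,
    HasDerivWithinAt (fun r => u r j k)
      (-((ν * ksq k ^ 2 : ℝ) : ℂ) * u t j k - transport (u t) j k) (Set.Icc 0 T) t

/-- `u₀` has a global strong solution `u`, unique on every `[0,T]`, and the fluctuation of `u`
tends to `0` as `t → ∞` -/
def GlobalData (ν s : ℝ) (u₀ : Field) : Prop :=
  ∃ u : ℝ → Field, u 0 = u₀ ∧ (∀ T : ℝ, 0 ≤ T → StrongSolution ν s T u ∧
    ∀ w : ℝ → Field, StrongSolution ν s T w → w 0 = u₀ → ∀ t ∈ Set.Icc 0 T, w t = u t) ∧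
    Filter.Tendsto (fun t => fluct (u t)) Filter.atTop (nhds 0)

/-- the component of `u` in direction `m` depends only on `m · x`: in Fourier coefficients,
`m · u(k) = 0` unless `k` is parallel to `m` -/
def Triangular (m : ℝ × ℝ) (u : Field) : Prop :=
  ∀ k : ℤ × ℤ, ((m.1 * k.2 - m.2 * k.1 : ℝ) : ℂ) * ((m.1 : ℂ) * u 0 k + (m.2 : ℂ) * u 1 k) = 0

/-- `u` has period `2π/n` in both variables: only frequencies in `n ℤ²` -/
def Periodic (n : ℕ) (u : Field) : Prop :=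
  ∀ (j : Fin 2) (k : ℤ × ℤ), ¬ ((n : ℤ) ∣ k.1 ∧ (n : ℤ) ∣ k.2) → u j k = 0

end Pool.HyperBurgers
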