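import Pool.Agent.H61.HB.All
import Pool.Agent.H61.HB.FlatDefs

set_option autoImplicit false

namespace Pool.HyperBurgers

theorem fluct_eq (u : Field) : fluct u = HB.flu u := by
  unfold fluct HB.flu HB.flS
  refine Finset.sum_congr rfl fun j _ => ?_
  refine tsum_congr fun k => ?_
  unfold HB.off
  split <;> simp

theorem strong_iff (ν s T : ℝ) (u : ℝ → Field) :
    StrongSolution ν s T u ↔ HB.Strong ν s T u := by
  constructor
  · intro h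
    exact ⟨⟨⟨fun t ht => (h.mem t ht).1, h.cont⟩, h.eqn⟩, fun t ht => (h.mem t ht).2, h.diss⟩
  · intro h
    exact ⟨fun t ht => ⟨h.sol.cts.1 t ht, h.real t ht⟩, h.sol.cts.2, h.diss, h.sol.eqn⟩

theorem global_iff (ν s : ℝ) (u : Field) : GlobalData ν s u ↔ HB.Global ν s u := by
  unfold GlobalData HB.Global
  simp only [strong_iff, fluct_eq]

theorem near_triangular (ν X : ℝ) (hν : 0 < ν) (hX : 0 ≤ X) :
    ∃ δ : ℝ, 0 < δ ∧ ∀ (s : ℝ) (m : ℝ × ℝ) (u₀ v₀ : Field), 2 ≤ s → m ≠ 0 →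
      InH s u₀ → RealValued u₀ → Triangular m u₀ → fluct u₀ ≤ X →
      InH s v₀ → RealValued v₀ → hsq (-1) (v₀ - u₀) < δ → GlobalData ν s v₀ := by
  obtain ⟨δ, hδ, h⟩ := HB.All.FNA ν X hν hX
  refine ⟨δ, hδ, fun s m u₀ v₀ hs hm h1 h2 h3 h4 h5 h6 h7 => ?_⟩
  rw [global_iff]
  exact h s m u₀ v₀ hs hm h1 h2 h3 (by rw [← fluct_eq]; exact h4) h5 h6 h7

theorem open_set (ν s : ℝ) (u₀ : Field) (hν : 0 < ν) (hs : 2 ≤ s) (h1 : InH s u₀)
    (h2 : RealValued u₀) (h3 : GlobalData ν s u₀) :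
    ∃ δ : ℝ, 0 < δ ∧ ∀ v₀ : Field, InH s v₀ → RealValued v₀ → hsq (-1) (v₀ - u₀) < δ →
      GlobalData ν s v₀ := by
  rw [global_iff] at h3
  obtain ⟨δ, hδ, h⟩ := HB.All.FNB ν s u₀ hν hs h1 h2 h3
  refine ⟨δ, hδ, fun v₀ h5 h6 h7 => ?_⟩
  rw [global_iff]
  exact h v₀ h5 h6 h7

theorem hneg_eq (u : Field) : hneg u = HB.hm u := by
  unfold hneg HB.hm HB.hmS
  refine Finset.sum_congr rfl fun j _ => ?_
  refine tsum_congr fun k => ?_
  unfold HB.off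
  split
  · simp
  · rfl

theorem small_period : ∃ c : ℝ, 0 < c ∧ ∀ (ν s : ℝ) (n : ℕ) (v₀ : Field), 0 < ν → 2 ≤ s → 1 ≤ n →
    InH s v₀ → RealValued v₀ → Periodic n v₀ → hneg v₀ < (c * ν * (n : ℝ) ^ 2) ^ 2 →
      GlobalData ν s v₀ := by
  obtain ⟨c, hc, h⟩ := HB.All.FNC
  refine ⟨c, hc, fun ν s n v₀ hν hs hn h1 h2 h3 h4 => ?_⟩
  rw [global_iff]
  exact h ν s n v₀ hν hs hn h1 h2 h3 (by rw [← hneg_eq]; exact h4)

end Pool.HyperBurgers
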