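import Pool.Agent.H61.HB.All2
import Pool.Agent.H61.HB.Flat

set_option autoImplicit false

namespace Pool.HyperBurgers

theorem dense_weak (ν r ε : ℝ) (u₀ : Field) (hν : 0 < ν) (hr : 3 / 2 < r) (hε : 0 < ε)
    (h1 : InH (-r) u₀) (h2 : RealValued u₀) :
    ∃ v₀ : Field, {k : ℤ × ℤ | ∃ j, v₀ j k ≠ 0}.Finite ∧ RealValued v₀ ∧
      hsq (-r) (v₀ - u₀) < ε ∧ ∀ s : ℝ, 2 ≤ s → GlobalData ν s v₀ ∧
        ∀ (T : ℝ) (v : ℝ → Field), StrongSolution ν s T v → v 0 = v₀ →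
          ∀ t ∈ Set.Icc ε T, hsq (-1) (v t) < ε := by
  obtain ⟨v₀, ha, hb, hc, hd⟩ := HB.All.FND2 ν r ε u₀ hν hr hε h1 h2
  refine ⟨v₀, ha, hb, hc, fun s hs => ?_⟩
  obtain ⟨v, hv0, hv1, hv2, hv3⟩ := hd s hs
  refine ⟨?_, ?_⟩
  · rw [global_iff]
    exact ⟨v, hv0, hv1, hv2⟩
  · intro T w hw hw0 t ht
    rw [strong_iff] at hw
    have e : w t = v t :=
      (hv1 T (by linarith [ht.1, ht.2])).2 w hw hw0 t ⟨by linarith [ht.1], ht.2⟩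
    rw [e]
    exact hv3 t ht.1

end Pool.HyperBurgers
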