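import Pool.Agent.H61.HB.FlatDefs

set_option autoImplicit false

namespace Pool.HyperBurgers

/-- square of the homogeneous `H^(-3/2)` norm of `u` minus its mean; `|k|³ = |k|² √(|k|²)` -/
noncomputable def hneg32 (u : Field) : ℝ :=
  ∑ j, ∑' k, if k = 0 then 0 else ‖u j k‖ ^ 2 / (ksq k * √(ksq k))

end Pool.HyperBurgers
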