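import Pool.Agent.H61.HB.Stmts2

/-!
Project HB, third batch: fields with the small period `2π/n`.
-/

set_option autoImplicit false

namespace HB

/-- only frequencies in `n ℤ²` -/
def Per (n : ℕ) (u : V) : Prop :=
  ∀ (j : Fin 2) (k : Z2), ¬ ((n : ℤ) ∣ k.1 ∧ (n : ℤ) ∣ k.2) → u j k = 0

/-- coefficients of `n³ U(n x)` -/
noncomputable def scl (n : ℕ) (U : V) : V := fun j k =>
  if (n : ℤ) ∣ k.1 ∧ (n : ℤ) ∣ k.2 then (n : ℂ) ^ 3 * U j (k.1 / n, k.2 / n) else 0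

/-- **HMC** (small fluctuation in `H^(-1)`). `CRB` with `L = 0` and the constant solution
`u t j k = if k = 0 then v₀ j 0 else 0` (`adv = 0`, `flu = grd = 0`, `mu (v₀ - u) = 0`,
`hm (v₀ - u) = hm v₀`). -/
def HMCStmt : Prop :=
  ∃ c : ℝ, 0 < c ∧ ∀ (ν s : ℝ) (v₀ : V), 0 < ν → 2 ≤ s → Mem s v₀ → Rl v₀ →
    hm v₀ < (c * ν) ^ 2 → Global ν s v₀

/-- **SCA** (elementary facts on `scl`, `n ≥ 1`). Reindexing `k = n k'`;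
`(1 + |n k|²)^s ≤ n^(2s) (1 + |k|²)^s` for `s ≥ 0`. -/
def SCAStmt : Prop :=
  ∀ n : ℕ, 1 ≤ n →
    (∀ u : V, Per n u → ∃ U : V, scl n U = u ∧ (Rl u → Rl U) ∧
      (∀ s : ℝ, 0 ≤ s → Mem s u → Mem s U) ∧ hm u = (n : ℝ) ^ 4 * hm U) ∧
    (∀ U : V, (Rl U → Rl (scl n U)) ∧ flu (scl n U) = (n : ℝ) ^ 6 * flu U ∧
      ∀ s : ℝ, 0 ≤ s → Mem s U → Mem s (scl n U) ∧
        nsq s (scl n U) ≤ (n : ℝ) ^ (2 * s + 6) * nsq s U) ∧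
    (∀ U W : V, scl n (U - W) = scl n U - scl n W) ∧
    (∀ U : V, adv (scl n U) (scl n U) = fun j k => (n : ℂ) ^ 4 * scl n (adv U U) j k)

/-- **SCB** (scaling of solutions): `n³ U(n x, n⁴ t)`. Only `SCA`, chain rule. The last clause
(`L²(H^(s+2))`) is `DIS`. -/
def SCBStmt : Prop :=
  ∀ (n : ℕ) (ν s T : ℝ) (U : ℝ → V), 1 ≤ n → 0 < ν → 2 ≤ s → 0 ≤ T →
    Sol ν s ((n : ℝ) ^ 4 * T) U → Sol ν s T (fun t => scl n (U ((n : ℝ) ^ 4 * t)))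

/-- **FNC** (fields of period `2π/n`: threshold `c ν n²` in `H^(-1)`), from `HMC`, `SCA`, `SCB`,
`DIS`, `UNQ`. -/
def FNCStmt : Prop :=
  ∃ c : ℝ, 0 < c ∧ ∀ (ν s : ℝ) (n : ℕ) (v₀ : V), 0 < ν → 2 ≤ s → 1 ≤ n → Mem s v₀ → Rl v₀ →
    Per n v₀ → hm v₀ < (c * ν * (n : ℝ) ^ 2) ^ 2 → Global ν s v₀

end HB
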