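import Pool.Agent.H61.HB.Stmts2

/-!
Project HB, fourth batch: density in `H^(-r)`, `r > 3/2`.  Row XXX = def XXXStmt : Prop.

Idea. `N = n²`, `W = (-2 ν sin N x₁, 2 p₂ cos N x₁) + (2 p₁ cos N x₂, -2 ν sin N x₂)`,
`v₀ = p + n³ W` (`p` a trigonometric polynomial).  `(W · ∇) W = 2 ν N p + O(1) + high frequencies`,
so `A(t) = θ² p + n³ θ W`, `θ = exp (-ν N⁴ t)`, is almost a solution: the residual is
`O(n⁷ θ)` in `H^(-1)`, and `∫ n⁷ θ = 1/(ν n)`.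
-/

set_option autoImplicit false

namespace HB

/-- only frequencies with `|k| ≤ M` -/
def Fs (M : ℝ) (u : V) : Prop := ∀ (j : Fin 2) (k : Z2), M ^ 2 < sq k → u j k = 0

/-- shift by `c` (multiplication by `exp (i c · x)`) -/
def sh (c : Z2) (u : V) : V := fun j k => u j (k - c)

/-- coefficients of `(i d · g) h` -/
noncomputable def mul (d : Z2) (g h : V) : V := fun j k =>
  ∑' l : Z2, (∑ i : Fin 2, g i l * (Complex.I * (co i d : ℂ))) * h j (k - l)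

def dir (i : Fin 4) : Fin 2 := if i.val < 2 then 0 else 1
def sgn (i : Fin 4) : ℤ := if i.val % 2 = 0 then 1 else -1
def opp (i : Fin 4) : Fin 4 := ![1, 0, 3, 2] i

/-- the four carrier frequencies `(N,0), (-N,0), (0,N), (0,-N)` -/
def car (N : ℤ) (i : Fin 4) : Z2 := if dir i = 0 then (sgn i * N, 0) else (0, sgn i * N)

/-- the profiles: component `dir i` is the constant `± i ν`, the other one is that of `p` -/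
noncomputable def pro (ν : ℝ) (p : V) (i : Fin 4) : V := fun j k =>
  if j = dir i then (if k = 0 then Complex.I * (ν : ℂ) * (sgn i : ℂ) else 0) else p j k

/-- the oscillating field `W` -/
noncomputable def osc (ν : ℝ) (p : V) (N : ℤ) : V := fun j k =>
  ∑ i : Fin 4, sh (car N i) (pro ν p i) j k

/-- the approximate solution `θ² p + n³ θ W`, `N = n²` -/
noncomputable def apx (ν : ℝ) (p : V) (n : ℕ) (θ : ℝ) : V := fun j k =>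
  ((θ ^ 2 : ℝ) : ℂ) * p j k + (((n : ℝ) ^ 3 * θ : ℝ) : ℂ) * osc ν p ((n : ℤ) ^ 2) j k

/-- `∂_t A + ν Δ² A` -/
noncomputable def frc (ν : ℝ) (p : V) (n : ℕ) (θ : ℝ) : V := fun j k =>
  ((ν * (sq k ^ 2 - 2 * (n : ℝ) ^ 8) * θ ^ 2 : ℝ) : ℂ) * p j k +
  ((ν * (sq k ^ 2 - (n : ℝ) ^ 8) * ((n : ℝ) ^ 3 * θ) : ℝ) : ℂ) * osc ν p ((n : ℤ) ^ 2) j k

/-- `θ(t) = exp (-ν N⁴ t)` -/
noncomputable def tht (ν : ℝ) (n : ℕ) (t : ℝ) : ℝ := Real.exp (-(ν * (n : ℝ) ^ 8) * t)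

/-- the Wiener norm `∑ (1 + |k|) |A(k)|` -/
def Wn (A : V) : Prop := ∀ j : Fin 2, Summable fun k => (1 + √(sq k)) * ‖A j k‖
noncomputable def wn (A : V) : ℝ := ∑ j : Fin 2, ∑' k, (1 + √(sq k)) * ‖A j k‖

/-- **TRP** (trigonometric polynomials are dense). Truncation of `u₀`; tail of a convergent
series (`(1+|k|²)^(-r) ≤ 1`). -/
def TRPStmt : Prop :=
  ∀ (s r ε : ℝ) (u₀ : V), 2 ≤ s → 0 ≤ r → 0 < ε → Mem s u₀ → Rl u₀ →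
    ∃ (M : ℝ) (p : V), 0 ≤ M ∧ Fs M p ∧ Rl p ∧ nsq (-r) (p - u₀) < ε

/-- **FSB** (finite support). `{k | sq k ≤ M²}` is finite. In (4): if `g i l ≠ 0` and
`h j (k - l) ≠ 0` then `|k| ≤ M + M'`. -/
def FSBStmt : Prop :=
  (∀ M : ℝ, {k : Z2 | sq k ≤ M ^ 2}.Finite) ∧
  (∀ (M σ : ℝ) (u : V), Fs M u → Mem σ u) ∧
  (∀ (M : ℝ) (u v : V), Fs M u → Fs M v → Fs M (u + v) ∧ Fs M (u - v)) ∧
  (∀ (M M' : ℝ) (g h : V), 0 ≤ M → 0 ≤ M' → Fs M g → Fs M' h →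
    Fs (M + M') (adv g h) ∧ ∀ d : Z2, Fs (M + M') (mul d g h)) ∧
  (∀ (M M' : ℝ) (u : V), 0 ≤ M → M ≤ M' → Fs M u → Fs M' u) ∧
  (∀ (M ν : ℝ) (p : V), 0 ≤ M → Fs M p → ∀ i : Fin 4, Fs M (pro ν p i)) ∧
  (∀ (M : ℝ) (c : Z2) (u : V), 0 ≤ M → Fs M u → Fs (√(sq c) + M) (sh c u))

/-- **ABL** (bilinearity of `adv`). From `BIL` (absolute convergence) and `tsum_add`, or from
`LIN`. -/
def ABLStmt : Prop :=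
  ∀ u v w : V, Mem 2 u → Mem 2 v → Mem 2 w →
    adv (u + v) w = adv u w + adv v w ∧ adv w (u + v) = adv w u + adv w v ∧
    (∀ c : ℂ, adv (fun j k => c * u j k) w = fun j k => c * adv u w j k) ∧
    (∀ c : ℂ, adv w (fun j k => c * u j k) = fun j k => c * adv w u j k)

/-- **SHF** (norm of a shift). `∑_k (1+|k|²)^σ |q(k-c)|² = ∑_a (1+|c+a|²)^σ |q(a)|²`;
`|c + a| ≥ N - M ≥ N/2` if `q(a) ≠ 0`. -/
def SHFStmt : Prop :=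
  ∀ (M N σ : ℝ) (c : Z2) (q : V), 0 ≤ M → 2 * M ≤ N → 0 < N → N ^ 2 ≤ sq c → σ ≤ 0 → Fs M q →
    Mem σ (sh c q) ∧ nsq σ (sh c q) ≤ (N ^ 2 / 4) ^ σ * nsq 0 q

/-- **ASH** (`adv` of shifted fields). `l = l' + c`, `k = k' + c + d` : `k - l = (k' - l') + d`. All
sums are finite. -/
def ASHStmt : Prop :=
  ∀ (M : ℝ) (c d : Z2) (g h : V), 0 ≤ M → Fs M g → Fs M h →
    adv (sh c g) (sh d h) = sh (c + d) (adv g h + mul d g h)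

/-- **MUB**. `mul d g h = co 0 d • m₀ + co 1 d • m₁`, `m_i j k = ∑' l, g i l * I * h j (k - l)`,
finitely supported. -/
def MUBStmt : Prop :=
  ∀ (M : ℝ) (g h : V), 0 ≤ M → Fs M g → Fs M h →
    ∃ K : ℝ, 0 ≤ K ∧ ∀ d : Z2, nsq 0 (mul d g h) ≤ K * sq d

/-- **LOW** (the algebra). `adv W W = ∑_(i,i') sh (c_i + c_i') (adv g_i g_i' + mul c_i' g_i g_i')`
(`ABL`, `ASH`); for `i' = opp i`: `c_i + c_i' = 0` and `mul c_i' g_i g_i' = ν N g_i'`, as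
`(component dir i of g_i) = ± i ν δ₀`; and `g_0 + g_1 = (0, 2 p 1)`, `g_2 + g_3 = (2 p 0, 0)`. -/
def LOWStmt : Prop :=
  ∀ (ν M : ℝ) (p : V) (N : ℤ), 0 ≤ M → Fs M p → ∀ j k,
    adv (osc ν p N) (osc ν p N) j k = ((2 * ν * (N : ℝ) : ℝ) : ℂ) * p j k +
      (∑ i : Fin 4, adv (pro ν p i) (pro ν p (opp i)) j k) +
      ∑ i : Fin 4, ∑ i' ∈ Finset.univ.erase (opp i), sh (car N i + car N i')
        (adv (pro ν p i) (pro ν p i') + mul (car N i') (pro ν p i) (pro ν p i')) j k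

/-- **OSB** (self interaction of the waves). `LOW`; the first sum does not depend on `N`; in the
second one `|c_i + c_i'|² ≥ 2 N²`, the profile is `Fs (2M)` with `nsq 0 ≤ K N²` (`MUB`), `SHF` with
`σ = -1`: `≤ (4/N²) K N²`. -/
def OSBStmt : Prop :=
  ∀ (ν M : ℝ) (p : V), 0 ≤ M → Fs M p → ∃ (K : ℝ) (N₀ : ℕ), 0 ≤ K ∧ ∀ N : ℕ, N₀ ≤ N → 1 ≤ N →
    nsq (-1) (fun j k => adv (osc ν p (N : ℤ)) (osc ν p (N : ℤ)) j k -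
      ((2 * ν * (N : ℝ) : ℝ) : ℂ) * p j k) ≤ K

/-- **CRO** (cross terms). `p = sh 0 p`; `adv p (sh d h) = sh d (adv p h + mul d p h)`,
`adv (sh c g) p = sh c (adv g p + mul 0 g p)`, `mul 0 = 0`; `MUB`, `SHF`. -/
def CROStmt : Prop :=
  ∀ (ν M : ℝ) (p : V), 0 ≤ M → Fs M p → ∃ (K : ℝ) (N₀ : ℕ), 0 ≤ K ∧ ∀ N : ℕ, N₀ ≤ N → 1 ≤ N →
    nsq (-1) (adv p (osc ν p (N : ℤ)) + adv (osc ν p (N : ℤ)) p) ≤ K

/-- **DLW**. For `k = c + a`, `|c| = N`, `|a| ≤ M ≤ N/2`: `| |k|² - N² | ≤ 2 N M + M²`,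
`|k|² + N² ≤ 4 N²`, so `| |k|⁴ - N⁴ | ≤ 12 M N³`; and `1/(1+|k|²) ≤ 4/N²`. -/
def DLWStmt : Prop :=
  ∀ (ν M : ℝ) (p : V), 0 ≤ M → Fs M p → ∃ (K : ℝ) (N₀ : ℕ), 0 ≤ K ∧ ∀ N : ℕ, N₀ ≤ N → 1 ≤ N →
    nsq (-1) (fun j k => ((sq k ^ 2 - (N : ℝ) ^ 4 : ℝ) : ℂ) * osc ν p (N : ℤ) j k) ≤
      K * (N : ℝ) ^ 4

/-- **NRW** (`W` in `H^(-r)`), from `SHF`. -/
def NRWStmt : Prop :=
  ∀ (ν M r : ℝ) (p : V), 0 ≤ M → 0 ≤ r → Fs M p → ∃ (K : ℝ) (N₀ : ℕ), 0 ≤ K ∧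
    ∀ N : ℕ, N₀ ≤ N → 1 ≤ N → nsq (-r) (osc ν p (N : ℤ)) ≤ K * ((N : ℝ) ^ 2) ^ (-r)

/-- **RSB** (the residual). `N = n²`; by `ABL` the residual is `θ² ν Δ² p + n³ θ ν (Δ² - N⁴) W +
θ⁴ adv p p + n³ θ³ (adv p W + adv W p) + n⁶ θ² (adv W W - 2 ν N p)`; `DLW`, `CRO`, `OSB`;
`nsq (-1)` of the five terms is `≤ K θ²`, `K n⁶ n⁸ θ²`, `K θ²`, `K n⁶ θ²`, `K n¹² θ²`. -/
def RSBStmt : Prop :=
  ∀ (ν M : ℝ) (p : V), 0 ≤ M → Fs M p → ∃ (K : ℝ) (n₀ : ℕ), 0 ≤ K ∧ ∀ n : ℕ, n₀ ≤ n → 1 ≤ n →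
    ∀ θ : ℝ, 0 ≤ θ → θ ≤ 1 →
      nsq (-1) (frc ν p n θ + adv (apx ν p n θ) (apx ν p n θ)) ≤ (K * (n : ℝ) ^ 7 * θ) ^ 2

/-- **WNB** (Wiener norm). `∑_k (1+|k|) |g(k-c)| ≤ (1 + |c| + M) ∑_a |g(a)|`. -/
def WNBStmt : Prop :=
  ∀ (ν M : ℝ) (p : V), 0 ≤ M → Fs M p → ∃ K : ℝ, 0 ≤ K ∧ ∀ n : ℕ, 1 ≤ n →
    ∀ θ : ℝ, 0 ≤ θ → θ ≤ 1 →
      Wn (apx ν p n θ) ∧ wn (apx ν p n θ) ≤ K * (n : ℝ) ^ 5 * θ

/-- **FSA** (`A` is real and finitely supported). For `Rl`: `g_(opp i) (-a) = conj (g_i a)`,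
`c_(opp i) = - c_i`. The support of everything is in `|k| ≤ n² + M`. -/
def FSAStmt : Prop :=
  ∀ (ν M : ℝ) (p : V) (n : ℕ) (θ : ℝ), 0 ≤ M → Fs M p →
    Fs ((n : ℝ) ^ 2 + M) (apx ν p n θ) ∧ Fs ((n : ℝ) ^ 2 + M) (frc ν p n θ) ∧
    Fs ((n : ℝ) ^ 2 + M) (osc ν p ((n : ℤ) ^ 2)) ∧ (Rl p → Rl (apx ν p n θ))

/-- **WTA** (linear terms, weight `1/|k|²`). For `k ≠ 0`, with `|k-l| ≤ |k| (1 + |l|)`:
`|adv A φ j k| ≤ |k| ∑_l (1+|l|) |A(l)| |φ_j(k-l)|`, `|adv φ A j k| ≤ |k| ∑_m (1+|m|) |A_j(m)|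
|φ(k-m)|`; `YNG`, and Cauchy - Schwarz with `|φ_j(k)|/|k|`. -/
def WTAStmt : Prop :=
  ∃ C : ℝ, 0 < C ∧ ∀ φ A : V, Mem 2 φ → Mem 2 A → Wn A →
    |∑ j : Fin 2, ∑' k : Z2, ((starRingEnd ℂ) (off (φ j) k) * (adv A φ j k + adv φ A j k)).re /
      sq k| ≤ C * wn A * (√(hm φ) * √(flu φ + mu φ))

/-- **WTM** (linear terms, means). `|adv A φ j 0| ≤ ∑_l |A(l)| |l| |φ_j(-l)| ≤ 2 wn A √(flu φ + mu φ)`,
the same for `adv φ A`. -/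
def WTMStmt : Prop :=
  ∃ C : ℝ, 0 < C ∧ ∀ φ A : V, Mem 2 φ → Mem 2 A → Wn A →
    |∑ j : Fin 2, ((starRingEnd ℂ) (φ j 0) * (adv A φ j 0 + adv φ A j 0)).re| ≤
      C * wn A * (√(mu φ) * √(flu φ + mu φ))

/-- **CTA** (continuity in time). As in `GRC`; `A` is a combination of two fixed finitely supported
fields with continuous coefficients. -/
def CTAStmt : Prop :=
  (∀ (T : ℝ) (φ : ℝ → V), Cts 2 T φ →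
    ContinuousOn (fun t => hm (φ t)) (Set.Icc 0 T) ∧
    ContinuousOn (fun t => mu (φ t)) (Set.Icc 0 T) ∧
    ContinuousOn (fun t => grd (φ t)) (Set.Icc 0 T)) ∧
  (∀ (ν s T M : ℝ) (p : V) (n : ℕ) (v : ℝ → V), 2 ≤ s → 0 ≤ M → Fs M p → Sol ν s T v →
    Cts 2 T (fun t => v t - apx ν p n (tht ν n t)) ∧ Cts 2 T (fun t => apx ν p n (tht ν n t)) ∧
    Cts 2 T (fun t => frc ν p n (tht ν n t)) ∧ Cts 2 T v)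

/-- **ENW** (weighted energy of `v - A`). The same proof as `WEN` (`energy_gen` in
`H40/HB/WEN.lean` with `f = v_j - A_j`, `g = adv v v j + frc j`): `A' = -ν |k|⁴ A + frc`. -/
def ENWStmt : Prop :=
  ∀ (ν s T M : ℝ) (p : V) (n : ℕ) (v : ℝ → V) (ω : Z2 → ℝ), 0 < ν → 2 ≤ s → 0 ≤ T → 0 ≤ M →
    Fs M p → Sol ν s T v → (∀ k, 0 ≤ ω k ∧ ω k ≤ 1) → ∀ j : Fin 2, ∀ t ∈ Set.Icc 0 T,
    HasDerivWithinAt (fun r => ∑' k, ω k * ‖v r j k - apx ν p n (tht ν n r) j k‖ ^ 2)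
      (∑' k, ω k * (-2 * ν * sq k ^ 2 * ‖v t j k - apx ν p n (tht ν n t) j k‖ ^ 2 -
        2 * ((starRingEnd ℂ) (v t j k - apx ν p n (tht ν n t) j k) *
          (adv (v t) (v t) j k + frc ν p n (tht ν n t) j k)).re)) (Set.Icc 0 T) t

/-- **RST** (the residual tested with `φ`). Cauchy - Schwarz; `hm R + mu R ≤ 2 nsq (-1) R` (`GRF`). -/
def RSTStmt : Prop :=
  ∀ φ R : V, Mem 2 φ → Mem 2 R →
    |∑ j : Fin 2, ∑' k : Z2, ((starRingEnd ℂ) (off (φ j) k) * R j k).re / sq k| +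
      |∑ j : Fin 2, ((starRingEnd ℂ) (φ j 0) * R j 0).re| ≤
      4 * √(hm φ + mu φ) * √(nsq (-1) R)

/-- **NED** (differential inequality), `φ = v - A`, `X = hm φ + mu φ`, `P = grd φ`, `a = wn A ≤
K n⁵ θ` (`WNB`). `ENW` with `ω k = 1/sq k` (`k ≠ 0`, else `0`) and with `ω 0 = 1` (else `0`), summed
over `j`; `adv v v + frc = adv φ φ + (adv A φ + adv φ A) + R` (`ABL`), `R = frc + adv A A`, `RSB`,
`RST`; `adv φ φ` by `HMW`, `MNW` with `u = 0`; the middle terms by `WTA`, `WTM`; so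
`X' ≤ -2 ν P + C √X P + C a √X √(flu φ + mu φ) + 8 √X K n⁷ θ`.
Here `√(flu + mu) ≤ √flu + √X`, `flu ≤ √X √P` (`GRF`), and with `N = n²`:
`√X √flu ≤ N X/2 + flu/(2N) ≤ N X/2 + (N² X + P/N²)/(4 N) ≤ N X + P/N³`; `a/N³ ≤ K/n`, so
`C a √X √(flu + mu) ≤ 2 C K n⁷ θ X + (C K/n) P`; `C √X P ≤ (ν/2) P` if `X ≤ c²`; `√X ≤ X + 1`. -/
def NEDStmt : Prop :=
  ∀ (ν M : ℝ) (p : V), 0 < ν → 0 ≤ M → Fs M p → Rl p →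
    ∃ (K c : ℝ) (n₀ : ℕ), 0 < K ∧ 0 < c ∧ ∀ n : ℕ, n₀ ≤ n → 1 ≤ n →
      ∀ (s T : ℝ) (v : ℝ → V), 2 ≤ s → 0 ≤ T → Sol ν s T v → (∀ t ∈ Set.Icc 0 T, Rl (v t)) →
      ∀ t ∈ Set.Icc 0 T, ∃ X' : ℝ,
        HasDerivWithinAt (fun r => hm (v r - apx ν p n (tht ν n r)) +
          mu (v r - apx ν p n (tht ν n r))) X' (Set.Icc 0 T) t ∧
        (hm (v t - apx ν p n (tht ν n t)) + mu (v t - apx ν p n (tht ν n t)) ≤ c ^ 2 →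
          X' ≤ -ν * grd (v t - apx ν p n (tht ν n t)) + K * (n : ℝ) ^ 7 * tht ν n t *
            (hm (v t - apx ν p n (tht ν n t)) + mu (v t - apx ν p n (tht ν n t)) + 1))

/-- **BTS** (real variable: Gronwall and continuity, compare `STW`). While `X ≤ c²`:
`(X+1)' ≤ g (X+1)`, so `X + 1 ≤ exp (∫ g) < 1 + c²`: this holds up to `T`. Then
`ν ∫ P ≤ ∫ g (X+1) ≤ ∫ g exp (∫_0^t g) = exp (∫_0^T g) - 1` and `X ≥ 0`. -/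
def BTSStmt : Prop :=
  ∀ (T ν c : ℝ) (X P g X' : ℝ → ℝ), 0 ≤ T → 0 < ν → 0 < c →
    ContinuousOn P (Set.Icc 0 T) → ContinuousOn g (Set.Icc 0 T) →
    (∀ t ∈ Set.Icc 0 T, 0 ≤ X t ∧ 0 ≤ P t ∧ 0 ≤ g t) → X 0 = 0 →
    (∀ t ∈ Set.Icc 0 T, HasDerivWithinAt X (X' t) (Set.Icc 0 T) t ∧
      (X t ≤ c ^ 2 → X' t ≤ -ν * P t + g t * (X t + 1))) →
    Real.exp (∫ r in (0 : ℝ)..T, g r) - 1 < c ^ 2 →
    (∀ t ∈ Set.Icc 0 T, X t ≤ Real.exp (∫ r in (0 : ℝ)..T, g r) - 1) ∧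
    ν * ∫ r in (0 : ℝ)..T, P r ≤ Real.exp (∫ r in (0 : ℝ)..T, g r) - 1

/-- **IGA**. `grd A ≤ 2 θ⁴ grd p + 2 n⁶ θ² grd W ≤ K θ²`, `∫_0^T θ² ≤ 1/(2 ν n⁸)`. -/
def IGAStmt : Prop :=
  ∀ (ν M : ℝ) (p : V) (n : ℕ), 0 < ν → 0 ≤ M → Fs M p → 1 ≤ n →
    ∃ K : ℝ, 0 ≤ K ∧ ∀ T : ℝ, 0 ≤ T →
      ∫ r in (0 : ℝ)..T, grd (apx ν p n (tht ν n r)) ≤ K

/-- **ITH**. `∫_0^T K n⁷ θ ≤ K/(ν n)`, `exp x - 1 ≤ 2 x` for `0 ≤ x ≤ 1`. -/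
def ITHStmt : Prop :=
  ∀ (ν K : ℝ) (n : ℕ), 0 < ν → 0 ≤ K → 1 ≤ n → ∀ T : ℝ, 0 ≤ T →
    0 ≤ ∫ r in (0 : ℝ)..T, K * (n : ℝ) ^ 7 * tht ν n r ∧
    ∫ r in (0 : ℝ)..T, K * (n : ℝ) ^ 7 * tht ν n r ≤ K / (ν * n) ∧
    (K ≤ ν * n → Real.exp (∫ r in (0 : ℝ)..T, K * (n : ℝ) ^ 7 * tht ν n r) - 1 ≤
      2 * K / (ν * n))

/-- **CRD** (core), from `NED`, `BTS` (`g = K n⁷ θ`), `ITH`, `CTA`. -/
def CRDStmt : Prop :=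
  ∀ (ν M : ℝ) (p : V), 0 < ν → 0 ≤ M → Fs M p → Rl p →
    ∃ (K : ℝ) (n₀ : ℕ), 0 < K ∧ ∀ n : ℕ, n₀ ≤ n → 1 ≤ n →
      ∀ (s T : ℝ) (v : ℝ → V), 2 ≤ s → 0 ≤ T → Sol ν s T v → (∀ t ∈ Set.Icc 0 T, Rl (v t)) →
      v 0 = apx ν p n 1 →
      (∀ t ∈ Set.Icc 0 T, hm (v t - apx ν p n (tht ν n t)) + mu (v t - apx ν p n (tht ν n t)) ≤
        K / n) ∧
      ∫ r in (0 : ℝ)..T, grd (v r - apx ν p n (tht ν n r)) ≤ K / n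

/-- **GLD** (global solution from `p + n³ W`). `GLB`: for every `Sol` `v` on `[0,T]`, `CRD`, `IGA`
and `grd v ≤ 2 grd (v - A) + 2 grd A` (`GRF`) bound `∫ grd v`, then `LGR` bounds `∫ dsq v` and gives
`flu → 0` (compare `crb_thm` in `H78/HB/CRB.lean`). `nsq (-1) φ ≤ hm φ + mu φ`. -/
def GLDStmt : Prop :=
  ∀ (ν M : ℝ) (p : V), 0 < ν → 0 ≤ M → Fs M p → Rl p →
    ∃ (K : ℝ) (n₀ : ℕ), 0 < K ∧ ∀ n : ℕ, n₀ ≤ n → 1 ≤ n → ∀ s : ℝ, 2 ≤ s →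
      ∃ v : ℝ → V, v 0 = apx ν p n 1 ∧ (∀ T : ℝ, 0 ≤ T → Strong ν s T v ∧
        ∀ w : ℝ → V, Strong ν s T w → w 0 = apx ν p n 1 → ∀ t ∈ Set.Icc 0 T, w t = v t) ∧
        Filter.Tendsto (fun t => flu (v t)) Filter.atTop (nhds 0) ∧
        ∀ t : ℝ, 0 ≤ t → nsq (-1) (v t - apx ν p n (tht ν n t)) ≤ K / n

/-- **DCA** (`A` is small for `t ≥ ε`, and `A(0)` is close to `p`). `nsq (-1) A ≤ K n⁶ θ²` and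
`n⁶ exp (-2 ν n⁸ ε) → 0`; `n⁶ (n⁴)^(-r) → 0` for `r > 3/2` (`NRW`). -/
def DCAStmt : Prop :=
  ∀ (ν M r ε : ℝ) (p : V), 0 < ν → 0 ≤ M → 3 / 2 < r → 0 < ε → Fs M p →
    ∃ n₀ : ℕ, ∀ n : ℕ, n₀ ≤ n → 1 ≤ n →
      nsq (-r) (apx ν p n 1 - p) < ε ∧ ∀ t : ℝ, ε ≤ t → nsq (-1) (apx ν p n (tht ν n t)) < ε

/-- **FND** (the theorem): for every real `u₀ ∈ H^s`, `r > 3/2`, `ε > 0` there is a trigonometric
polynomial `v₀` with `‖v₀ - u₀‖_{H^(-r)}² < ε` with a global strong solution `v`, and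
`‖v(t)‖_{H^(-1)}² < ε` for all `t ≥ ε`. From `TRP`, `GLD`, `DCA`, `FSA`, `FSB`, `MMB`. -/
def FNDStmt : Prop :=
  ∀ (ν s r ε : ℝ) (u₀ : V), 0 < ν → 2 ≤ s → 3 / 2 < r → 0 < ε → Mem s u₀ → Rl u₀ →
    ∃ v₀ : V, {k : Z2 | ∃ j, v₀ j k ≠ 0}.Finite ∧ Rl v₀ ∧ Mem s v₀ ∧ nsq (-r) (v₀ - u₀) < ε ∧
      ∃ v : ℝ → V, v 0 = v₀ ∧ (∀ T : ℝ, 0 ≤ T → Strong ν s T v ∧
        ∀ w : ℝ → V, Strong ν s T w → w 0 = v₀ → ∀ t ∈ Set.Icc 0 T, w t = v t) ∧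
        Filter.Tendsto (fun t => flu (v t)) Filter.atTop (nhds 0) ∧
        ∀ t : ℝ, ε ≤ t → nsq (-1) (v t) < ε

end HB
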