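import Pool.Agent.H61.HB.Stmts3
import Pool.Agent.H61.HB.Stmts4

/-!
Project HB, fifth batch: everything of the second and third batch for the weaker norm `H^(-3/2)`
(sharp: `FND` shows density in `H^(-r)` for every `r > 3/2`).  Row XXX = def XXXStmt : Prop.
Below `|k| = √(sq k)`, `|k|³ = sq k * √(sq k)`; `x / 0 = 0`.
-/

set_option autoImplicit false

namespace HB

/-- homogeneous `H^(-3/2)` norm squared, without the mean -/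
noncomputable def hnS (f : Z2 → ℂ) : ℝ := ∑' k, ‖off f k‖ ^ 2 / (sq k * √(sq k))

/-- homogeneous `H^(1/2)` norm squared -/
noncomputable def hpS (f : Z2 → ℂ) : ℝ := ∑' k, √(sq k) * ‖f k‖ ^ 2

noncomputable def hn (u : V) : ℝ := ∑ j, hnS (u j)
noncomputable def hp (u : V) : ℝ := ∑ j, hpS (u j)

/-- `∑_(k ≠ 0) |k|⁻³` -/
noncomputable def cZ : ℝ := ∑' k : Z2, (sq k * √(sq k))⁻¹

/-- **SM3**. `(1 + sq k) ^ (3/2) ≥ (1+k₁²)^(3/4) (1+k₂²)^(3/4)`, and `sq k ≥ (1 + sq k)/2`, `k ≠ 0`;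
or a lattice sum of Mathlib (`EisensteinSeries`). -/
def SM3Stmt : Prop := Summable fun k : Z2 => (sq k * √(sq k))⁻¹

/-- **GR3** (elementary facts, as `GRF`). `sq k = 0` or `sq k ≥ 1`;
`|k|⁻³ ≤ 4 (1 + |k|²)^(-3/2)` for `k ≠ 0`. -/
def GR3Stmt : Prop :=
  (∀ f : Z2 → ℂ, MemS 2 f →
    Summable (fun k => √(sq k) * ‖f k‖ ^ 2) ∧
    Summable (fun k => ‖off f k‖ ^ 2 / (sq k * √(sq k))) ∧
    0 ≤ hnS f ∧ hnS f ≤ flS f ∧ flS f ≤ hpS f ∧ hpS f ≤ dsS f) ∧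
  (∀ w : V, Mem 2 w → 0 ≤ hn w ∧ hn w ≤ flu w ∧ flu w ≤ hp w ∧ hp w ≤ dsq w ∧
    hn w + mu w ≤ 4 * nsq (-(3 / 2)) w) ∧
  (∀ u v : V, Mem 2 u → Mem 2 v → hp v ≤ 2 * hp (v - u) + 2 * hp u)

/-- **GC3** (continuity in time), as `GRC` (helper80). -/
def GC3Stmt : Prop :=
  ∀ (ν s T : ℝ) (u v : ℝ → V), 2 ≤ s → Sol ν s T u → Sol ν s T v →
    ContinuousOn (fun t => flu (u t)) (Set.Icc 0 T) ∧
    ContinuousOn (fun t => hp (u t)) (Set.Icc 0 T) ∧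
    ContinuousOn (fun t => dsq (u t)) (Set.Icc 0 T) ∧
    ContinuousOn (fun t => hn (v t - u t)) (Set.Icc 0 T) ∧
    ContinuousOn (fun t => mu (v t - u t)) (Set.Icc 0 T) ∧
    ContinuousOn (fun t => hp (v t - u t)) (Set.Icc 0 T)

/-- **TR3** (trilinear bound with the weight `|k|⁻³`). `m = k - l`; the term is `0` if one of
`k, l, m` is `0`. By `|m| ≤ |k| + |l|` the square of the term is
`(|f_k|²/|k|³) (|l| a_l²) (|m| b_m²) |m|/(|k|³ |l|) ≤ X Y`, `X = (|f_k|²/|k|³) (|l| a_l²)`,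
`Y = (|k|⁻² |l|⁻¹ + |k|⁻³) |m| b_m² ≤ (2 |k|⁻³ + |l|⁻³) |m| b_m²` (AM - GM);
`∑ √X √Y ≤ √(∑ X) √(∑ Y)`, `∑ X = hnS f * ∑ |l| a_l²`, `∑ Y = 3 cZ ∑ |m| b_m²`, `√3 ≤ 2`. -/
def TR3Stmt : Prop :=
  ∀ (f : Z2 → ℂ) (a b : Z2 → ℝ), MemS 2 f → (∀ k, 0 ≤ a k) → (∀ k, 0 ≤ b k) → a 0 = 0 →
    Summable (fun k => √(sq k) * a k ^ 2) → Summable (fun k => √(sq k) * b k ^ 2) →
    Summable (fun x : Z2 × Z2 => ‖off f x.1‖ / (sq x.1 * √(sq x.1)) *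
      (a x.2 * (√(sq (x.1 - x.2)) * b (x.1 - x.2)))) ∧
    ∑' x : Z2 × Z2, ‖off f x.1‖ / (sq x.1 * √(sq x.1)) *
      (a x.2 * (√(sq (x.1 - x.2)) * b (x.1 - x.2))) ≤
      2 * √cZ * √(hnS f) * (√(∑' k, √(sq k) * a k ^ 2) * √(∑' k, √(sq k) * b k ^ 2))

/-- **TB3** (transport term), as `TWB` (helper55). `z` real: the mean of `z` gives
`|k|⁻³ |f(k)|² i z(0)·k`, purely imaginary; the rest by `TR3` with `a(l) = |z̃(l)|`,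
`b(p) = |f(p)|`. -/
def TB3Stmt : Prop :=
  ∀ (z : V) (f : Z2 → ℂ), Mem 2 z → Rl z → MemS 2 f →
    |∑' k, ((starRingEnd ℂ) (off f k) * dot z f k).re / (sq k * √(sq k))| ≤
      2 * √cZ * √(hnS f) * (√(hp z) * √(hpS f))

/-- **TC3** (production term), as `TWC` (helper91). The mean of `w` gives at most
`∑ |k|⁻³ |f(k)| |w(0)| |k| |h(k)| ≤ √(mu w) √(hpS h) √(hnS f)`; the rest by `TR3`. -/
def TC3Stmt : Prop :=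
  ∀ (w : V) (f h : Z2 → ℂ), Mem 2 w → MemS 2 f → MemS 2 h →
    |∑' k, ((starRingEnd ℂ) (off f k) * dot w h k).re / (sq k * √(sq k))| ≤
      2 * √cZ * √(hnS f) * (√(hp w) * √(hpS h)) + √(mu w) * (√(hpS h) * √(hnS f))

/-- **HW3** (nonlinear term), as `HMW` (helper74), `w = v - u`: `adv v v - adv u u = adv w w +
adv w u + adv u w`; `TB3` (`z = w` and `z = u`, `f = w_j`), `TC3` (`h = u_j`). -/
def HW3Stmt : Prop :=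
  ∃ C : ℝ, 0 < C ∧ ∀ u v : V, Mem 2 u → Mem 2 v → Rl u → Rl v →
    |∑ j, ∑' k, ((starRingEnd ℂ) (off ((v - u) j) k) *
        (adv v v j k - adv u u j k)).re / (sq k * √(sq k))| ≤
      C * (√(hn (v - u)) * hp (v - u) + √(hn (v - u)) * (√(hp u) * √(hp (v - u))) +
        √(mu (v - u)) * (√(hp u) * √(hn (v - u))))

/-- **MN3** (the means), as `MNW` (helper53). `dot z b 0 = ∑_l (z(l) · i(-l)) b(-l)`, so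
`|dot z b 0| ≤ ∑_l |l| |z(l)| |b(-l)| ≤ √(hp z) √(hpS b)`. -/
def MN3Stmt : Prop :=
  ∃ C : ℝ, 0 < C ∧ ∀ u v : V, Mem 2 u → Mem 2 v →
    |∑ j, ((starRingEnd ℂ) ((v - u) j 0) * (adv v v j 0 - adv u u j 0)).re| ≤
      C * √(mu (v - u)) * (hp (v - u) + √(hp u) * √(hp (v - u)))

/-- **NE3** (differential inequality), `Y = hn w + mu w`, as `NEI` (helper34). `WEN` with
`ω k = |k|⁻³` (`k ≠ 0`, else `0`) and with `ω k = 1` (`k = 0`, else `0`):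
`Y' = -2 ν hp w - 2 H - 2 M`. Young: `2 C √hn √(hp u) √P ≤ ν P/8 + C' hp u hn/ν`,
`2 C √mu √(hp u) √hn ≤ 2 C √mu √(hp u) √P ≤ ν P/8 + C' hp u mu/ν` (`hn ≤ P`),
`2 C √hn P + 2 C √mu P ≤ ν P/4` for small `Y`, `2 C √mu √(hp u) √P ≤ ν P/8 + C' hp u mu/ν`. -/
def NE3Stmt : Prop :=
  ∃ C c : ℝ, 0 < C ∧ 0 < c ∧ ∀ (ν s T : ℝ) (u v : ℝ → V), 0 < ν → 2 ≤ s → 0 ≤ T →
    Sol ν s T u → Sol ν s T v → (∀ t ∈ Set.Icc 0 T, Rl (u t) ∧ Rl (v t)) →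
    ∀ t ∈ Set.Icc 0 T, ∃ Y' : ℝ,
      HasDerivWithinAt (fun r => hn (v r - u r) + mu (v r - u r)) Y' (Set.Icc 0 T) t ∧
      (hn (v t - u t) + mu (v t - u t) ≤ (c * ν) ^ 2 →
        Y' ≤ -ν * hp (v t - u t) + C * (hp (u t) / ν) * (hn (v t - u t) + mu (v t - u t)))

/-- **ST3** (stability in `H^(-3/2)`), as `STW` (helper1). -/
def ST3Stmt : Prop :=
  ∃ C c : ℝ, 0 < C ∧ 0 < c ∧ ∀ (ν s T L : ℝ) (u v : ℝ → V), 0 < ν → 2 ≤ s → 0 ≤ T →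
    Sol ν s T u → Sol ν s T v → (∀ t ∈ Set.Icc 0 T, Rl (u t) ∧ Rl (v t)) →
    C * (∫ r in (0 : ℝ)..T, hp (u r) / ν) ≤ L →
    (hn (v 0 - u 0) + mu (v 0 - u 0)) * Real.exp L < (c * ν) ^ 2 →
    ∫ r in (0 : ℝ)..T, hp (v r - u r) ≤
      (hn (v 0 - u 0) + mu (v 0 - u 0)) * Real.exp (2 * L) / ν

/-- **TS3** (trilinear bound for the `L²` energy). `|dvg w l| ≤ |l| |w(l)|` and
`|l|^(1/2) ≤ |k|^(1/2) + |k-l|^(1/2)`, so the sum is at most `2 ∑ (|k|^(1/2) |f_k|) (|l|^(1/2) |w(l)|)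
|f_(k-l)| ≤ 2 ‖|k|^(1/2) f̃‖₁ √(hp w) √(flS f)` and `∑_(k≠0) |k|^(1/2) |f_k| ≤ √cZ √(dsS f)`
(Cauchy - Schwarz: `∑ |k|⁻³`, `∑ |k|⁴ |f|²`). -/
def TS3Stmt : Prop :=
  ∀ (w : V) (f : Z2 → ℂ), Mem 2 w → MemS 2 f →
    ‖tr3 (dvg w) f‖ ≤ 2 * √cZ * √(hp w) * √(dsS f) * √(flS f)

/-- **LG3** (`L²` energy), as `LGR` (helper89), with `TS3` for `TRS`:
`F' ≤ -2 ν D + C √(hp v) √D √F ≤ -ν D + (C/ν) hp v F`, `D ≥ F`. -/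
def LG3Stmt : Prop :=
  ∃ C : ℝ, 0 < C ∧ ∀ (ν s T : ℝ) (v : ℝ → V), 0 < ν → 2 ≤ s → 0 ≤ T → Sol ν s T v →
    (∀ t ∈ Set.Icc 0 T, Rl (v t)) → ∀ t ∈ Set.Icc 0 T,
      flu (v t) ≤ flu (v 0) * Real.exp (-ν * t + C / ν * ∫ r in (0 : ℝ)..t, hp (v r)) ∧
      ∫ r in (0 : ℝ)..t, dsq (v r) ≤
        flu (v 0) / ν * Real.exp (2 * (C / ν * ∫ r in (0 : ℝ)..t, hp (v r)))

/-- **CB3** (core), as `CRB` (helper78): `ST3`, `LG3`, `GLB`. -/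
def CB3Stmt : Prop :=
  ∃ C c : ℝ, 0 < C ∧ 0 < c ∧ ∀ (ν s L : ℝ) (u : ℝ → V) (v₀ : V), 0 < ν → 2 ≤ s → 0 ≤ L →
    (∀ T : ℝ, 0 ≤ T → Sol ν s T u ∧ ∀ t ∈ Set.Icc 0 T, Rl (u t)) →
    (∀ T : ℝ, 0 ≤ T → ∫ r in (0 : ℝ)..T, hp (u r) / ν ≤ L) →
    Mem s v₀ → Rl v₀ →
    (hn (v₀ - u 0) + mu (v₀ - u 0)) * Real.exp (C * L) < (c * ν) ^ 2 → Global ν s v₀

/-- **FA3** (uniform `H^(-3/2)` neighbourhoods of all triangular fields), as `FNA`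
(`H61/HB/FNA.lean`; simpler: `∫ hp ≤ ∫ dsq ≤ K`): `TRU`, `GLB`, `CB3`. -/
def FA3Stmt : Prop :=
  ∀ ν X : ℝ, 0 < ν → 0 ≤ X → ∃ δ : ℝ, 0 < δ ∧ ∀ (s : ℝ) (m : ℝ × ℝ) (u₀ v₀ : V), 2 ≤ s → m ≠ 0 →
    Mem s u₀ → Rl u₀ → Tri m u₀ → flu u₀ ≤ X → Mem s v₀ → Rl v₀ →
    nsq (-(3 / 2)) (v₀ - u₀) < δ → Global ν s v₀

/-- **FB3** (the set of good data is open in `H^(-3/2)`), as `FNB` (`H61/HB/FNB.lean`). -/
def FB3Stmt : Prop :=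
  ∀ (ν s : ℝ) (u₀ : V), 0 < ν → 2 ≤ s → Mem s u₀ → Rl u₀ → Global ν s u₀ →
    ∃ δ : ℝ, 0 < δ ∧ ∀ v₀ : V, Mem s v₀ → Rl v₀ → nsq (-(3 / 2)) (v₀ - u₀) < δ → Global ν s v₀

/-- **HM3** (small fluctuation in `H^(-3/2)`), as `HMC` (helper22): `CB3` with `L = 0` and the
constant solution. -/
def HM3Stmt : Prop :=
  ∃ c : ℝ, 0 < c ∧ ∀ (ν s : ℝ) (v₀ : V), 0 < ν → 2 ≤ s → Mem s v₀ → Rl v₀ →
    hn v₀ < (c * ν) ^ 2 → Global ν s v₀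

/-- **SC3** (scaling), as `SCA` (helper1): `hn (scl n U) = n⁶ n⁻³ hn U`. -/
def SC3Stmt : Prop :=
  ∀ n : ℕ, 1 ≤ n → ∀ U : V, hn (scl n U) = (n : ℝ) ^ 3 * hn U

/-- **FC3** (fields of period `2π/n`: threshold `c ν n^(3/2)` in `H^(-3/2)`), as `FNC`
(`H61/HB/FNC.lean`), from `HM3`, `SCA`, `SC3`, `SCB`, `DIS`, `UNQ`. -/
def FC3Stmt : Prop :=
  ∃ c : ℝ, 0 < c ∧ ∀ (ν s : ℝ) (n : ℕ) (v₀ : V), 0 < ν → 2 ≤ s → 1 ≤ n → Mem s v₀ → Rl v₀ →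
    Per n v₀ → hn v₀ < (c * ν) ^ 2 * (n : ℝ) ^ 3 → Global ν s v₀

end HB
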